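import Mathlib

namespace Pool.Agent.H.MP_be01ff_an

open Set MeasureTheory intervalIntegral Filter Topology

noncomputable def Gf (c α s : ℝ) : ℝ := c * |s| ^ α * s

noncomputable def Wf (c α s : ℝ) : ℝ := c * |s| ^ (α + 2) / (α + 2)

lemma Gf_neg (c α s : ℝ) : Gf c α (-s) = - Gf c α s := by
  simp [Gf]

lemma Gf_zero (c α : ℝ) : Gf c α 0 = 0 := by simp [Gf]

lemma Gf_of_nonneg {c α s : ℝ} (hα : 0 < α) (hs : 0 ≤ s) : Gf c α s = c * s ^ (α + 1) := by
  unfold Gf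
  rw [abs_of_nonneg hs, Real.rpow_add_one' hs (by linarith), mul_assoc]

lemma Gf_cont {c α : ℝ} (hα : 0 < α) : Continuous (Gf c α) := by
  unfold Gf
  exact (continuous_const.mul (continuous_abs.rpow_const (fun _ => Or.inr hα.le))).mul continuous_id

lemma Gf_deriv_pos {c α s : ℝ} (hα : 0 < α) (hs : 0 < s) :
    HasDerivAt (Gf c α) (c * (α + 1) * |s| ^ α) s := by
  have h1 : HasDerivAt (fun x : ℝ => c * x ^ (α + 1)) (c * ((α + 1) * s ^ (α + 1 - 1))) s :=
    (Real.hasDerivAt_rpow_const (Or.inl hs.ne')).const_mul c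
  have h2 : Gf c α =ᶠ[𝓝 s] fun x : ℝ => c * x ^ (α + 1) := by
    filter_upwards [lt_mem_nhds hs] with x hx
    exact Gf_of_nonneg hα hx.le
  have h3 := h1.congr_of_eventuallyEq h2
  rw [abs_of_pos hs]
  refine h3.congr_deriv ?_
  rw [add_sub_cancel_right]; ring

lemma Gf_deriv {c α : ℝ} (hα : 0 < α) (s : ℝ) :
    HasDerivAt (Gf c α) (c * (α + 1) * |s| ^ α) s := by
  rcases lt_trichotomy s 0 with hs | hs | hs
  · have h1 := Gf_deriv_pos (c := c) hα (neg_pos.2 hs)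
    have h2 : HasDerivAt (fun x : ℝ => - Gf c α (-x)) (-((c * (α + 1) * |(-s)| ^ α) * (-1))) s :=
      (h1.comp s (hasDerivAt_neg s)).neg
    have h3 : (fun x : ℝ => - Gf c α (-x)) = Gf c α := by
      ext x; rw [Gf_neg]; ring
    rw [h3] at h2
    refine h2.congr_deriv ?_
    rw [abs_neg]; ring
  · subst hs
    rw [hasDerivAt_iff_tendsto_slope_zero]
    have h1 : Continuous (fun x : ℝ => c * |x| ^ α) :=
      continuous_const.mul (continuous_abs.rpow_const (fun _ => Or.inr hα.le))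
    have h2 : Tendsto (fun x : ℝ => c * |x| ^ α) (𝓝[≠] 0) (𝓝 (c * |(0:ℝ)| ^ α)) :=
      (h1.tendsto 0).mono_left nhdsWithin_le_nhds
    have h3 : c * (α + 1) * |(0:ℝ)| ^ α = c * |(0:ℝ)| ^ α := by
      simp [Real.zero_rpow hα.ne']
    rw [h3]
    refine h2.congr' ?_
    filter_upwards [self_mem_nhdsWithin] with x hx
    have hx' : x ≠ 0 := hx
    simp only [Gf, zero_add, mul_zero, sub_zero, smul_eq_mul]
    field_simp
  · exact Gf_deriv_pos hα hs

lemma Gf_mono {c α : ℝ} (hc : 0 < c) (hα : 0 < α) : Monotone (Gf c α) :=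
  monotone_of_hasDerivAt_nonneg (Gf_deriv hα) (fun s => by positivity)

lemma Gf_nonneg {c α s : ℝ} (hc : 0 < c) (hs : 0 ≤ s) : 0 ≤ Gf c α s := by
  unfold Gf; positivity

lemma Gf_lip {c α R : ℝ} (hc : 0 < c) (hα : 0 < α) {x y : ℝ} (hx : |x| ≤ R) (hy : |y| ≤ R) :
    |Gf c α x - Gf c α y| ≤ c * (α + 1) * R ^ α * |x - y| := by
  have h := (convex_Icc (-R) R).norm_image_sub_le_of_norm_hasDerivWithin_le
    (f := Gf c α) (f' := fun s => c * (α + 1) * |s| ^ α) (C := c * (α + 1) * R ^ α)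
    (fun s _ => (Gf_deriv hα s).hasDerivWithinAt) (fun s hs => by
      rw [Real.norm_eq_abs, abs_of_nonneg (by positivity)]
      have : |s| ≤ R := abs_le.2 hs
      gcongr) (abs_le.1 hy) (abs_le.1 hx)
  simpa [Real.norm_eq_abs] using h

lemma Wf_deriv {c α : ℝ} (hα : 0 < α) (s : ℝ) : HasDerivAt (Wf c α) (Gf c α s) s := by
  have h := ((hasDerivAt_abs_rpow s (p := α + 2) (by linarith)).const_mul c).div_const (α + 2)
  refine h.congr_deriv ?_
  have : α + 2 ≠ 0 := by linarith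
  unfold Gf
  rw [add_sub_cancel_right]; field_simp

lemma Wf_cont {c α : ℝ} (hα : 0 < α) : Continuous (Wf c α) :=
  continuous_iff_continuousAt.2 (fun s => (Wf_deriv hα s).continuousAt)

lemma Wf_nonneg {c α : ℝ} (hc : 0 < c) (hα : 0 < α) (s : ℝ) : 0 ≤ Wf c α s := by
  unfold Wf; positivity

lemma mul_Gf {c α : ℝ} (hα : 0 < α) (s : ℝ) : Gf c α s * s = (α + 2) * Wf c α s := by
  have h : α + 2 ≠ 0 := by linarith
  unfold Gf Wf
  rw [Real.rpow_add' (abs_nonneg s) h, Real.rpow_two, sq_abs]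
  field_simp

lemma Wf_taylor {c α R κ : ℝ} (hα : 0 < α)
    (hl : ∀ x y, |x| ≤ R → |y| ≤ R → |Gf c α x - Gf c α y| ≤ κ * |x - y|) (hκ : 0 ≤ κ)
    {x y : ℝ} (hx : |x| ≤ R) (hy : |y| ≤ R) :
    Wf c α y ≤ Wf c α x + Gf c α x * (y - x) + κ * (y - x) ^ 2 := by
  have h := (convex_uIcc x y).norm_image_sub_le_of_norm_hasDerivWithin_le
    (f := fun s => Wf c α s - Gf c α x * s) (f' := fun s => Gf c α s - Gf c α x * 1)
    (C := κ * |y - x|)
    (fun s _ => ((Wf_deriv hα s).sub ((hasDerivAt_id s).const_mul _)).hasDerivWithinAt)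
    (fun s hs => by
      rw [Real.norm_eq_abs, mul_one]
      have h1 : |s| ≤ R := by
        rw [abs_le] at hx hy ⊢
        rcases mem_uIcc.1 hs with h | h <;> constructor <;> linarith
      have h2 : |s - x| ≤ |y - x| := abs_sub_left_of_mem_uIcc hs
      exact (hl s x h1 hx).trans (by gcongr)) left_mem_uIcc right_mem_uIcc
  rw [Real.norm_eq_abs, Real.norm_eq_abs, mul_assoc, abs_mul_abs_self] at h
  have := le_abs_self (Wf c α y - Gf c α x * y - (Wf c α x - Gf c α x * x))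
  nlinarith

lemma iter_half {p : ℝ → Prop} {η B0 : ℝ} (hη : 0 ≤ η) (hB : 0 ≤ B0) (h0 : p B0)
    (hs : ∀ B, 0 ≤ B → p B → p (η + B / 2)) (n : ℕ) :
    ∃ B, 0 ≤ B ∧ p B ∧ B ≤ 2 * η + B0 / 2 ^ n := by
  induction n with
  | zero => exact ⟨B0, hB, h0, by simp; linarith⟩
  | succ n ih =>
    obtain ⟨B, h1, h2, h3⟩ := ih
    refine ⟨η + B / 2, by positivity, hs B h1 h2, ?_⟩
    have : B0 / 2 ^ (n + 1) = B0 / 2 ^ n / 2 := by rw [pow_succ, div_div]
    linarith

lemma iter_bound {ι : Type} {F w : ι → ℝ} {η B0 : ℝ} (hη : 0 ≤ η) (hB : 0 ≤ B0)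
    (hw : ∀ i, 0 ≤ w i) (h0 : ∀ i, F i ≤ B0 * w i)
    (hs : ∀ B, 0 ≤ B → (∀ i, F i ≤ B * w i) → ∀ i, F i ≤ (η + B / 2) * w i) (i : ι) :
    F i ≤ 2 * η * w i := by
  have h1 : Tendsto (fun n : ℕ => (2 * η + B0 / 2 ^ n) * w i) atTop (𝓝 ((2 * η + 0) * w i)) :=
    (tendsto_const_nhds.add (tendsto_const_nhds.div_atTop
      (tendsto_pow_atTop_atTop_of_one_lt one_lt_two))).mul_const _
  rw [add_zero] at h1
  refine ge_of_tendsto' h1 (fun n => ?_)
  obtain ⟨B, -, h2, h3⟩ := iter_half (p := fun B => ∀ i, F i ≤ B * w i) hη hB h0 hs n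
  exact (h2 i).trans (mul_le_mul_of_nonneg_right h3 (hw i))

lemma int_exp_pos {φ : ℝ → ℝ} {t ε B l : ℝ} (hl : 0 < l) (hB : 0 ≤ B) (ht : 0 ≤ t)
    (h : ∀ s, |s| ≤ |t| → |φ s| ≤ ε + B * Real.exp (l * |s|)) :
    |∫ s in (0:ℝ)..t, φ s| ≤ ε * |t| + B / l * Real.exp (l * |t|) := by
  have h1 : ‖∫ s in (0:ℝ)..t, φ s‖ ≤ ∫ s in (0:ℝ)..t, (ε + B * Real.exp (l * s)) := by
    refine intervalIntegral.norm_integral_le_of_norm_le ht (Eventually.of_forall fun s hs => ?_)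
      (Continuous.intervalIntegrable (by fun_prop) _ _)
    have := h s (by rw [abs_of_pos hs.1, abs_of_nonneg ht]; exact hs.2)
    rwa [abs_of_pos hs.1] at this
  have h2 : ∫ s in (0:ℝ)..t, (ε + B * Real.exp (l * s)) =
      (ε * t + B / l * Real.exp (l * t)) - (ε * 0 + B / l * Real.exp (l * 0)) := by
    refine intervalIntegral.integral_eq_sub_of_hasDerivAt
      (f := fun s => ε * s + B / l * Real.exp (l * s)) (fun s _ => ?_)
      (Continuous.intervalIntegrable (by fun_prop) _ _)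
    have := ((hasDerivAt_id s).const_mul ε).add
      ((((hasDerivAt_id s).const_mul l).exp).const_mul (B / l))
    refine this.congr_deriv ?_
    simp only [id]; field_simp
  rw [h2, Real.norm_eq_abs] at h1
  rw [abs_of_nonneg ht]
  have : 0 ≤ B / l * Real.exp (l * 0) := by positivity
  linarith

lemma int_exp {φ : ℝ → ℝ} {t ε B l : ℝ} (hl : 0 < l) (hB : 0 ≤ B)
    (h : ∀ s, |s| ≤ |t| → |φ s| ≤ ε + B * Real.exp (l * |s|)) :
    |∫ s in (0:ℝ)..t, φ s| ≤ ε * |t| + B / l * Real.exp (l * |t|) := by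
  rcases le_total 0 t with ht | ht
  · exact int_exp_pos hl hB ht h
  · have h1 := int_exp_pos (φ := fun s => φ (-s)) (t := -t) (ε := ε) hl hB (by linarith)
      (fun s hs => by
        have := h (-s) (by rwa [abs_neg] at hs ⊢)
        rwa [abs_neg] at this)
    rw [intervalIntegral.integral_comp_neg, neg_neg, neg_zero, intervalIntegral.integral_symm,
      abs_neg, abs_neg] at h1
    exact h1

lemma gron {ι : Type} {F : ℝ → ι → ℝ} {T L η ε B0 : ℝ} (hL : 0 < L) (hη : 0 ≤ η) (hε : 0 ≤ ε)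
    (hT : 0 ≤ T) (hB : 0 ≤ B0) (h0 : ∀ t, |t| ≤ T → ∀ i, |F t i| ≤ B0)
    (hs : ∀ t, |t| ≤ T → ∀ i, ∃ (φ : ℝ → ℝ) (j k : ℝ → ι), |F t i - ∫ s in (0:ℝ)..t, φ s| ≤ η ∧
      ∀ s, |s| ≤ T → |φ s| ≤ ε + L * (|F s (j s)| + |F s (k s)|))
    (t : ℝ) (ht : |t| ≤ T) (i : ι) : |F t i| ≤ 2 * (η + ε * T) * Real.exp (4 * L * |t|) := by
  have key := iter_bound (ι := {s : ℝ // |s| ≤ T} × ι) (F := fun p => |F p.1.1 p.2|)
    (w := fun p => Real.exp (4 * L * |p.1.1|)) (η := η + ε * T) (B0 := B0) (by positivity) hB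
    (fun _ => by positivity) (fun p => by
      have h1 : 1 ≤ Real.exp (4 * L * |p.1.1|) := Real.one_le_exp (by positivity)
      have := h0 p.1.1 p.1.2 p.2
      nlinarith) (fun B hB h p => by
      obtain ⟨φ, j, k, h1, h2⟩ := hs p.1.1 p.1.2 p.2
      have h3 := int_exp (φ := φ) (t := p.1.1) (ε := ε) (B := 2 * L * B) (l := 4 * L)
        (by positivity) (by positivity) (fun s hs => by
          have hs' := hs.trans p.1.2
          have a1 := h (⟨s, hs'⟩, j s)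
          have a2 := h (⟨s, hs'⟩, k s)
          have a3 := h2 s hs'
          simp only at a1 a2
          nlinarith)
      have h4 : 2 * L * B / (4 * L) = B / 2 := by field_simp; ring
      rw [h4] at h3
      have h5 : 1 ≤ Real.exp (4 * L * |p.1.1|) := Real.one_le_exp (by positivity)
      have h6 := abs_add_le (F p.1.1 p.2 - ∫ s in (0:ℝ)..p.1.1, φ s) (∫ s in (0:ℝ)..p.1.1, φ s)
      rw [sub_add_cancel] at h6
      have h7 : ε * |p.1.1| ≤ ε * T := mul_le_mul_of_nonneg_left p.1.2 hε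
      have h8 : 0 ≤ η + ε * T := by positivity
      nlinarith) (⟨t, ht⟩, i)
  exact key

lemma swap {F : ℝ → ℝ → ℝ} (hF : Continuous F.uncurry) (a b c d : ℝ) :
    ∫ x in a..b, ∫ y in c..d, F x y = ∫ y in c..d, ∫ x in a..b, F x y := by
  apply intervalIntegral_intervalIntegral_swap
  exact (hF.continuousOn.integrableOn_compact (isCompact_uIcc.prod isCompact_uIcc)).mono_set
    (prod_mono uIoc_subset_uIcc uIoc_subset_uIcc)

lemma avg {f : ℝ → ℝ} (hf : ∀ y, f (y + 2) = f y) (t0 y : ℝ) :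
    ∫ r in t0..(t0 + 1), f (2 * r - y) = 1 / 2 * ∫ z in (0:ℝ)..2, f z := by
  rw [intervalIntegral.integral_comp_mul_sub f two_ne_zero y]
  have h := Function.Periodic.intervalIntegral_add_eq (f := f) (T := 2) hf (2 * t0 - y) 0
  rw [zero_add] at h
  have e : 2 * (t0 + 1) - y = 2 * t0 - y + 2 := by ring
  rw [e, h, smul_eq_mul]; norm_num

lemma ode_le {F F' H H' : ℝ → ℝ} {a b K : ℝ} (hF : ∀ s, HasDerivAt F (F' s) s)
    (hH : ∀ s, HasDerivAt H (H' s) s) (h0 : F a ≤ H a)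
    (h : ∀ s ∈ Icc a b, K * F s + F' s ≤ K * H s + H' s) : ∀ s ∈ Icc a b, F s ≤ H s := by
  intro s hs
  have hd : ∀ s, HasDerivAt (fun s => Real.exp (K * s) * (H s - F s))
      (Real.exp (K * s) * (K * 1) * (H s - F s) + Real.exp (K * s) * (H' s - F' s)) s :=
    fun s => (((hasDerivAt_id s).const_mul K).exp).mul ((hH s).sub (hF s))
  have hm : MonotoneOn (fun s => Real.exp (K * s) * (H s - F s)) (Icc a b) := by
    refine monotoneOn_of_hasDerivWithinAt_nonneg (convex_Icc a b)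
      (fun s _ => (hd s).continuousAt.continuousWithinAt)
      (fun s _ => (hd s).hasDerivWithinAt) (fun s hs => ?_)
    have h1 := h s (interior_subset hs)
    have h2 := Real.exp_pos (K * s)
    nlinarith
  have h1 := hm (left_mem_Icc.2 (hs.1.trans hs.2)) hs hs.1
  simp only at h1
  have h2 := Real.exp_pos (K * s)
  have h3 := Real.exp_pos (K * a)
  have h4 : 0 ≤ Real.exp (K * a) * (H a - F a) := mul_nonneg h3.le (by linarith)
  by_contra hc
  push Not at hc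
  nlinarith

structure Sol (G : ℝ → ℝ) (P : ℝ → ℝ → ℝ) : Prop where
  cG : Continuous G
  cont : Continuous P.uncurry
  per : ∀ t y, P t (y + 2) = P t y
  eqn : ∀ t, 0 ≤ t → ∀ y, P t y = P 0 y - ∫ s in (0:ℝ)..t, G (P s y - P s (2 * s - y))

lemma Sol.cont' {G : ℝ → ℝ} {P : ℝ → ℝ → ℝ} (h : Sol G P) {X : Type} [TopologicalSpace X]
    {a b : X → ℝ} (ha : Continuous a) (hb : Continuous b) : Continuous fun x => P (a x) (b x) :=
  h.cont.comp (ha.prodMk hb)

lemma Sol.contg {G : ℝ → ℝ} {P : ℝ → ℝ → ℝ} (h : Sol G P) (y : ℝ) :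
    Continuous fun s => G (P s y - P s (2 * s - y)) :=
  h.cG.comp ((h.cont' continuous_id continuous_const).sub (h.cont' continuous_id (by fun_prop)))

lemma Sol.incr {G : ℝ → ℝ} {P : ℝ → ℝ → ℝ} (h : Sol G P) {t0 t : ℝ} (h0 : 0 ≤ t0) (ht : 0 ≤ t)
    (y : ℝ) : P t y = P t0 y - ∫ s in t0..t, G (P s y - P s (2 * s - y)) := by
  rw [h.eqn t ht y, h.eqn t0 h0 y, ← intervalIntegral.integral_add_adjacent_intervals
    ((h.contg y).intervalIntegrable 0 t0) ((h.contg y).intervalIntegrable t0 t)]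
  ring

lemma Sol.ext {G : ℝ → ℝ} {P : ℝ → ℝ → ℝ} (h : Sol G P) (y : ℝ) :
    ∃ F : ℝ → ℝ, (∀ s, HasDerivAt F (- G (P s y - P s (2 * s - y))) s) ∧
      ∀ s, 0 ≤ s → F s = P s y :=
  ⟨fun t => P 0 y - ∫ s in (0:ℝ)..t, G (P s y - P s (2 * s - y)), fun s =>
    ((h.contg y).integral_hasStrictDerivAt 0 s).hasDerivAt.const_sub _,
    fun s hs => (h.eqn s hs y).symm⟩

lemma per_bdd {P : ℝ → ℝ → ℝ} (hc : Continuous P.uncurry) (hp : ∀ t y, P t (y + 2) = P t y)
    (T : ℝ) : ∃ R, 0 < R ∧ ∀ t, |t| ≤ T → ∀ y, |P t y| ≤ R := by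
  obtain ⟨R, hR⟩ := ((isCompact_Icc (a := -T) (b := T)).prod
    (isCompact_Icc (a := (0:ℝ)) (b := 2))).exists_bound_of_continuousOn hc.continuousOn
  refine ⟨|R| + 1, by positivity, fun t ht y => ?_⟩
  obtain ⟨z, hz, e⟩ := Function.Periodic.exists_mem_Ico₀ (f := P t) (hp t) two_pos y
  have := hR (t, z) ⟨abs_le.1 ht, Ico_subset_Icc_self hz⟩
  rw [Real.norm_eq_abs] at this
  rw [e]
  have h2 := le_abs_self R
  exact this.trans (by linarith)

lemma Sol.neg {G : ℝ → ℝ} {P : ℝ → ℝ → ℝ} (h : Sol G P) (hodd : ∀ s, G (-s) = - G s) :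
    Sol G (fun t y => - P t y) where
  cG := h.cG
  cont := h.cont.neg
  per := fun t y => by rw [h.per]
  eqn := fun t ht y => by
    rw [h.eqn t ht y]
    have : ∀ s, G (- P s y - - P s (2 * s - y)) = - G (P s y - P s (2 * s - y)) := fun s => by
      rw [← hodd]; congr 1; ring
    simp only [this, intervalIntegral.integral_neg]
    ring

lemma Sol.maxp {G : ℝ → ℝ} {P : ℝ → ℝ → ℝ} (h : Sol G P) (hodd : ∀ s, G (-s) = - G s)
    (hpos : ∀ s, 0 ≤ s → 0 ≤ G s) (hlin : ∀ R, ∃ K, 0 < K ∧ ∀ s ∈ Icc 0 R, G s ≤ K * s)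
    {t1 m : ℝ} (h1 : 0 ≤ t1) (hm : ∀ y, P t1 y ≤ m) {t : ℝ} (ht : t1 ≤ t) (y : ℝ) :
    P t y ≤ m := by
  obtain ⟨R, hR, hb⟩ := per_bdd h.cont h.per t
  obtain ⟨K, hK, hk⟩ := hlin (2 * R)
  have hb' : ∀ s ∈ Icc t1 t, ∀ y, |P s y| ≤ R := fun s hs y =>
    hb s (by rw [abs_of_nonneg (h1.trans hs.1)]; exact hs.2) y
  have key := iter_bound (ι := Icc t1 t × ℝ) (F := fun p => P p.1.1 p.2 - m)
    (w := fun p => Real.exp (K * (p.1.1 - t1))) (η := 0) (B0 := R + |m|) le_rfl (by positivity)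
    (fun _ => by positivity) (fun p => by
      have a1 : 1 ≤ Real.exp (K * (p.1.1 - t1)) :=
        Real.one_le_exp (mul_nonneg hK.le (by linarith [p.1.2.1]))
      have a2 := (abs_le.1 (hb' p.1.1 p.1.2 p.2)).2
      have a3 := neg_abs_le m
      have a4 : 0 ≤ R + |m| := by positivity
      nlinarith) (fun B hB hh p => by
      obtain ⟨F, hF, hF'⟩ := h.ext p.2
      have hH : ∀ s, HasDerivAt (fun s => m + B / 2 * Real.exp (K * (s - t1)))
          (B / 2 * (Real.exp (K * (s - t1)) * (K * 1))) s := fun s =>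
        ((((hasDerivAt_id s).sub_const t1).const_mul K).exp.const_mul (B / 2)).const_add m
      have := ode_le (a := t1) (b := t) (K := K) hF hH (by
        rw [hF' t1 h1]
        have := hm p.2
        have : 0 ≤ B / 2 * Real.exp (K * (t1 - t1)) := by positivity
        linarith) (fun s hs => by
        rw [hF' s (h1.trans hs.1)]
        have a1 := hh (⟨s, hs⟩, p.2)
        have a2 := hh (⟨s, hs⟩, 2 * s - p.2)
        simp only at a1 a2
        have a3 := abs_le.1 (hb' s hs p.2)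
        have a4 := abs_le.1 (hb' s hs (2 * s - p.2))
        rcases le_total (P s (2 * s - p.2)) (P s p.2) with a5 | a5
        · have := hpos _ (sub_nonneg.2 a5)
          nlinarith
        · have a6 := hk (P s (2 * s - p.2) - P s p.2) ⟨by linarith, by linarith⟩
          have a7 := hodd (P s (2 * s - p.2) - P s p.2)
          rw [neg_sub] at a7
          nlinarith) p.1.1 p.1.2
      rw [hF' _ (h1.trans p.1.2.1)] at this
      linarith) (⟨t, ht, le_rfl⟩, y)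
  simp only [mul_zero, zero_mul] at key
  linarith

lemma Sol.maxabs {G : ℝ → ℝ} {P : ℝ → ℝ → ℝ} (h : Sol G P) (hodd : ∀ s, G (-s) = - G s)
    (hpos : ∀ s, 0 ≤ s → 0 ≤ G s) (hlin : ∀ R, ∃ K, 0 < K ∧ ∀ s ∈ Icc 0 R, G s ≤ K * s)
    {t1 m : ℝ} (h1 : 0 ≤ t1) (hm : ∀ y, |P t1 y| ≤ m) {t : ℝ} (ht : t1 ≤ t) (y : ℝ) :
    |P t y| ≤ m := by
  have a1 := h.maxp hodd hpos hlin h1 (fun y => (abs_le.1 (hm y)).2) ht y
  have a2 := (h.neg hodd).maxp hodd hpos hlin (m := m) h1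
    (fun y => by have := (abs_le.1 (hm y)).1; linarith) ht y
  rw [abs_le]; constructor <;> linarith

lemma Gf_lin {c α : ℝ} (hc : 0 < c) (hα : 0 < α) (R : ℝ) :
    ∃ K, 0 < K ∧ ∀ s ∈ Icc 0 R, Gf c α s ≤ K * s := by
  refine ⟨c * (|R| + 1) ^ α, by positivity, fun s hs => ?_⟩
  unfold Gf
  have h1 : |s| ≤ |R| + 1 := by
    rw [abs_of_nonneg hs.1]; have := le_abs_self R; linarith [hs.2]
  have := hs.1
  gcongr

end Pool.Agent.H.MP_be01ff_an
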