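import Pool.Agent.H.MP_be01ff_an.A

namespace Pool.Agent.H.MP_be01ff_an

open Set MeasureTheory intervalIntegral Filter Topology

lemma Sol.maxG {c α : ℝ} (hc : 0 < c) (hα : 0 < α) {P : ℝ → ℝ → ℝ} (h : Sol (Gf c α) P)
    {t1 m : ℝ} (h1 : 0 ≤ t1) (hm : ∀ y, |P t1 y| ≤ m) {t : ℝ} (ht : t1 ≤ t) (y : ℝ) :
    |P t y| ≤ m :=
  h.maxabs (Gf_neg c α) (fun _ hs => Gf_nonneg hc hs) (Gf_lin hc hα) h1 hm ht y

lemma sup_step {c α : ℝ} (hc : 0 < c) (hα : 0 < α) {P : ℝ → ℝ → ℝ} (h : Sol (Gf c α) P)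
    {M0 M t0 K : ℝ} (hK : K = c * (α + 1) * (2 * M0) ^ α) (h0 : 0 ≤ t0) (hM : 0 < M)
    (hMM : M ≤ M0) (hmean : ∫ y in (0:ℝ)..2, P t0 y = 0) (hb : ∀ y, |P t0 y| ≤ M) (y : ℝ) :
    P (t0 + 1) y ≤ M - Real.exp (-K) * c * (Real.exp (-K) / 2) ^ (α + 1) / 3 * M ^ (α + 1) := by
  have hM0 : 0 < M0 := hM.trans_le hMM
  have hK0 : 0 < K := by rw [hK]; positivity
  have hb' : ∀ s, t0 ≤ s → ∀ y, |P s y| ≤ M := fun s hs y => h.maxG hc hα h0 hb hs y
  have key : ∀ s, t0 ≤ s → ∀ y z,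
      Gf c α (M - P s z) ≤ K * (M - P s y) + Gf c α (P s y - P s z) := fun s hs y z => by
    have a1 := abs_le.1 (hb' s hs y)
    have a2 := abs_le.1 (hb' s hs z)
    have a3 := Gf_lip (R := 2 * M0) hc hα (x := M - P s z) (y := P s y - P s z)
      (by rw [abs_le]; constructor <;> linarith) (by rw [abs_le]; constructor <;> linarith)
    rw [← hK, show M - P s z - (P s y - P s z) = M - P s y by ring,
      abs_of_nonneg (by linarith : 0 ≤ M - P s y)] at a3
    have := (abs_le.1 a3).2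
    linarith
  have hE : ∀ s, HasDerivAt (fun s => Real.exp (-K * (s - t0)))
      (Real.exp (-K * (s - t0)) * (-K * 1)) s := fun s =>
    (((hasDerivAt_id s).sub_const t0).const_mul (-K)).exp
  have st1 : ∀ y, ∀ s ∈ Icc t0 (t0 + 1), Real.exp (-K) * (M - P t0 y) ≤ M - P s y := by
    intro y s hs
    obtain ⟨F, hF, hF'⟩ := h.ext y
    have := ode_le (a := t0) (b := t0 + 1) (K := K)
      (fun s => (hE s).mul_const (M - P t0 y)) (fun s => (hF s).const_sub M) (by
        rw [hF' t0 h0]; simp) (fun r hr => by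
        rw [hF' r (h0.trans hr.1)]
        have a1 := key r hr.1 y (2 * r - y)
        have a2 := Gf_nonneg (α := α) hc (s := M - P r (2 * r - y))
          (by linarith [(abs_le.1 (hb' r hr.1 (2 * r - y))).2])
        linarith) s hs
    rw [hF' s (h0.trans hs.1)] at this
    refine le_trans ?_ this
    have a1 : 0 ≤ M - P t0 y := by linarith [(abs_le.1 (hb y)).2]
    have a2 : Real.exp (-K) ≤ Real.exp (-K * (s - t0)) :=
      Real.exp_le_exp.2 (by nlinarith [hs.1, hs.2])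
    exact mul_le_mul_of_nonneg_right a2 a1
  obtain ⟨g0, hg0⟩ : ∃ g0, g0 = Gf c α (Real.exp (-K) * (M / 2)) := ⟨_, rfl⟩
  have hg0' : 0 ≤ g0 := by rw [hg0]; exact Gf_nonneg hc (by positivity)
  obtain ⟨γ, hγ⟩ : ∃ γ : ℝ → ℝ, γ = fun z => g0 * (M / 2 - P t0 z) / (3 * M / 2) := ⟨_, rfl⟩
  have cγ : Continuous γ := by
    rw [hγ]
    have := h.cont' (a := fun _ : ℝ => t0) (b := fun z => z) continuous_const continuous_id
    fun_prop
  have cγ' : Continuous fun r => γ (2 * r - y) := cγ.comp (by fun_prop)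
  have iγ : ∫ r in t0..(t0 + 1), γ (2 * r - y) = g0 / 3 := by
    rw [avg (f := γ) (fun z => by rw [hγ]; simp only [h.per])]
    have e : γ = fun z => g0 / 3 - (2 * g0 / (3 * M)) * P t0 z := by
      rw [hγ]; ext z; field_simp
    have i1 : IntervalIntegrable (fun z => (2 * g0 / (3 * M)) * P t0 z) volume 0 2 :=
      (continuous_const.mul (h.cont' continuous_const continuous_id)).intervalIntegrable _ _
    rw [e, intervalIntegral.integral_sub (by simp) i1, intervalIntegral.integral_const_mul, hmean]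
    simp; ring
  obtain ⟨F, hF, hF'⟩ := h.ext y
  have := ode_le (a := t0) (b := t0 + 1) (K := K)
    (fun s => (hE s).mul (cγ'.integral_hasStrictDerivAt t0 s).hasDerivAt)
    (fun s => (hF s).const_sub M) (by
      rw [hF' t0 h0]
      have := (abs_le.1 (hb y)).2
      simp; linarith) (fun r hr => by
      rw [hF' r (h0.trans hr.1)]
      have a1 := key r hr.1 y (2 * r - y)
      have a2 := Gf_mono hc hα (st1 (2 * r - y) r hr)
      have a3 := abs_le.1 (hb (2 * r - y))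
      have a4 : Real.exp (-K * (r - t0)) ≤ 1 := Real.exp_le_one_iff.2 (by nlinarith [hr.1])
      have a5 := Real.exp_pos (-K * (r - t0))
      have a6 : Real.exp (-K * (r - t0)) * γ (2 * r - y) ≤
          Gf c α (Real.exp (-K) * (M - P t0 (2 * r - y))) := by
        rcases le_total (M / 2) (P t0 (2 * r - y)) with b | b
        · have b1 : γ (2 * r - y) ≤ 0 := by
            rw [hγ]
            exact div_nonpos_of_nonpos_of_nonneg
              (mul_nonpos_of_nonneg_of_nonpos hg0' (by linarith)) (by positivity)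
          have b2 := Gf_nonneg (α := α) hc (s := Real.exp (-K) * (M - P t0 (2 * r - y)))
            (mul_nonneg (Real.exp_pos _).le (by linarith))
          nlinarith
        · have b1 : γ (2 * r - y) ≤ g0 := by
            rw [hγ]
            simp only
            rw [div_le_iff₀ (by positivity)]
            exact mul_le_mul_of_nonneg_left (by linarith) hg0'
          have b2 : g0 ≤ Gf c α (Real.exp (-K) * (M - P t0 (2 * r - y))) := by
            rw [hg0]
            exact Gf_mono hc hα (mul_le_mul_of_nonneg_left (by linarith) (Real.exp_pos _).le)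
          nlinarith
      simp only [Pi.mul_apply]
      nlinarith) (t0 + 1) ⟨by linarith, le_rfl⟩
  rw [hF' _ (by linarith)] at this
  simp only [Pi.mul_apply, iγ, add_sub_cancel_left, mul_one] at this
  rw [hg0, Gf_of_nonneg hα (by positivity),
    show Real.exp (-K) * (M / 2) = Real.exp (-K) / 2 * M by ring,
    Real.mul_rpow (by positivity) hM.le] at this
  linarith

lemma one_sub_le_rpow {x r : ℝ} (hx : 0 ≤ x) (hr : 0 ≤ r) : 1 - r * x ≤ (1 + x) ^ (-r) := by
  rw [Real.rpow_def_of_pos (by linarith)]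
  have h1 : Real.log (1 + x) ≤ x := by
    have := Real.log_le_sub_one_of_pos (x := 1 + x) (by linarith); linarith
  have h2 := Real.add_one_le_exp (Real.log (1 + x) * -r)
  nlinarith

lemma sup_decay {c α : ℝ} (hc : 0 < c) (hα : 0 < α) {P : ℝ → ℝ → ℝ} (h : Sol (Gf c α) P)
    (hmean : ∀ t, 0 ≤ t → ∫ y in (0:ℝ)..2, P t y = 0) :
    ∃ U, 0 < U ∧ ∀ t, 0 ≤ t → ∀ y, |P t y| ≤ U * (1 + t) ^ (-(1 / α)) := by
  obtain ⟨M0, hM0, hb⟩ := per_bdd h.cont h.per 0
  replace hb := hb 0 (by simp)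
  obtain ⟨K, hK⟩ : ∃ K, K = c * (α + 1) * (2 * M0) ^ α := ⟨_, rfl⟩
  obtain ⟨c1, hc1⟩ : ∃ c1, c1 = Real.exp (-K) * c * (Real.exp (-K) / 2) ^ (α + 1) / 3 := ⟨_, rfl⟩
  have hc1' : 0 < c1 := by rw [hc1]; positivity
  obtain ⟨K0, hK0⟩ : ∃ K0, K0 = (1 / (α * c1)) ^ (1 / α) := ⟨_, rfl⟩
  have hK0' : 0 < K0 := by rw [hK0]; positivity
  have hK1 : K0 ^ α = 1 / (α * c1) := by
    rw [hK0, ← Real.rpow_mul (by positivity), one_div_mul_cancel hα.ne', Real.rpow_one]
  obtain ⟨τ, hτ⟩ : ∃ τ, τ = (K0 / M0) ^ α := ⟨_, rfl⟩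
  have hτ' : 0 < τ := by rw [hτ]; positivity
  have hτ1 : K0 * τ ^ (-(1 / α)) = M0 := by
    rw [hτ, ← Real.rpow_mul (by positivity), mul_neg, mul_one_div_cancel hα.ne',
      Real.rpow_neg_one]
    field_simp
  have hr : -(1 / α) ≤ 0 := by have : 0 < 1 / α := by positivity
                               linarith
  have main : ∀ n : ℕ, ∀ y, |P n y| ≤ K0 * (n + τ) ^ (-(1 / α)) := by
    intro n
    induction n with
    | zero => intro y; simpa [hτ1, -one_div] using hb y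
    | succ n ih =>
      intro y
      have hθ : 0 < (n:ℝ) + τ := by positivity
      have hM : 0 < K0 * (n + τ) ^ (-(1 / α)) := by positivity
      have hMM : K0 * (n + τ) ^ (-(1 / α)) ≤ M0 := by
        rw [← hτ1]
        exact mul_le_mul_of_nonneg_left
          (Real.rpow_le_rpow_of_nonpos hτ' (by linarith [Nat.cast_nonneg (α := ℝ) n]) hr) hK0'.le
      have a1 := sup_step hc hα h hK (Nat.cast_nonneg n) hM hMM (hmean _ (Nat.cast_nonneg n)) ih y
      have a2 := sup_step hc hα (h.neg (Gf_neg c α)) hK (Nat.cast_nonneg n) hM hMM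
        (by rw [intervalIntegral.integral_neg, hmean _ (Nat.cast_nonneg n), neg_zero])
        (fun y => by rw [abs_neg]; exact ih y) y
      rw [← hc1] at a1 a2
      have a3 : (K0 * (n + τ) ^ (-(1 / α))) ^ (α + 1) =
          K0 * (n + τ) ^ (-(1 / α)) * (1 / (α * c1) * (n + τ)⁻¹) := by
        rw [Real.rpow_add_one hM.ne', Real.mul_rpow hK0'.le (by positivity), hK1,
          ← Real.rpow_mul hθ.le, neg_mul, one_div_mul_cancel hα.ne', Real.rpow_neg_one]
        ring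
      have a4 : ((n:ℝ) + 1 + τ) ^ (-(1 / α)) =
          (n + τ) ^ (-(1 / α)) * (1 + (n + τ)⁻¹) ^ (-(1 / α)) := by
        rw [← Real.mul_rpow hθ.le (by positivity)]
        congr 1; field_simp; ring
      have a5 := one_sub_le_rpow (x := ((n:ℝ) + τ)⁻¹) (r := 1 / α) (by positivity) (by positivity)
      have a6 : K0 * (n + τ) ^ (-(1 / α)) - c1 * (K0 * (n + τ) ^ (-(1 / α))) ^ (α + 1) ≤
          K0 * ((n:ℝ) + 1 + τ) ^ (-(1 / α)) := by
        rw [a3, a4]
        have e : K0 * (n + τ) ^ (-(1 / α)) - c1 * (K0 * (n + τ) ^ (-(1 / α)) *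
            (1 / (α * c1) * (n + τ)⁻¹)) =
            K0 * (n + τ) ^ (-(1 / α)) * (1 - 1 / α * (n + τ)⁻¹) := by field_simp
        rw [e, ← mul_assoc]
        exact mul_le_mul_of_nonneg_left a5 hM.le
      push_cast
      rw [abs_le]; constructor <;> linarith
  refine ⟨K0 * (1 + 2 / τ) ^ (1 / α), by positivity, fun t ht y => ?_⟩
  have b1 := h.maxG hc hα (Nat.cast_nonneg ⌊t⌋₊) (main ⌊t⌋₊) (Nat.floor_le ht) y
  refine b1.trans ?_
  have b2 : t < ⌊t⌋₊ + 1 := Nat.lt_floor_add_one t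
  have b3 : (0:ℝ) ≤ ⌊t⌋₊ := Nat.cast_nonneg _
  have b4 : (1 + t) / (1 + 2 / τ) ≤ ⌊t⌋₊ + τ := by
    rw [div_le_iff₀ (by positivity)]
    have : (⌊t⌋₊ + τ) * (1 + 2 / τ) = ⌊t⌋₊ + τ + 2 + ⌊t⌋₊ * (2 / τ) := by field_simp; ring
    rw [this]
    have : 0 ≤ (⌊t⌋₊ : ℝ) * (2 / τ) := by positivity
    linarith
  have b5 := Real.rpow_le_rpow_of_nonpos (by positivity) b4 hr
  rw [Real.div_rpow (by positivity) (by positivity), Real.rpow_neg (x := 1 + 2 / τ) (by positivity),
    div_inv_eq_mul] at b5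
  rw [mul_assoc]
  exact mul_le_mul_of_nonneg_left (by linarith) hK0'.le

lemma one_sub_rpow_le {x r : ℝ} (hx : 0 ≤ x) (hx1 : x ≤ 1 / 2) (hr : 0 ≤ r) (hrx : 2 * r * x ≤ 1) :
    (1 - x) ^ (-r) ≤ 1 + r * x + (2 * r + 4 * r ^ 2) * x ^ 2 := by
  rw [Real.rpow_def_of_pos (by linarith)]
  have h1 : 1 - (1 - x)⁻¹ ≤ Real.log (1 - x) := Real.one_sub_inv_le_log_of_pos (by linarith)
  have h2 : (1 - x)⁻¹ ≤ 1 + x + 2 * x ^ 2 := by
    rw [inv_le_iff_one_le_mul₀ (by linarith)]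
    nlinarith [mul_nonneg (mul_nonneg hx hx) (by linarith : 0 ≤ 1 - 2 * x)]
  have h3 : Real.log (1 - x) * -r ≤ r * x + 2 * r * x ^ 2 := by nlinarith
  have h4 : r * x + 2 * r * x ^ 2 ≤ 2 * r * x := by
    nlinarith [mul_nonneg (mul_nonneg hr hx) (by linarith : 0 ≤ 1 - 2 * x)]
  have h5 : 0 ≤ r * x + 2 * r * x ^ 2 := by positivity
  have h6 := Real.abs_exp_sub_one_sub_id_le (x := r * x + 2 * r * x ^ 2)
    (by rw [abs_of_nonneg h5]; linarith)
  have h7 := (abs_le.1 h6).2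
  have h8 : (r * x + 2 * r * x ^ 2) ^ 2 ≤ (2 * r * x) ^ 2 := by gcongr
  have h9 := Real.exp_le_exp.2 h3
  nlinarith

end Pool.Agent.H.MP_be01ff_an
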