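import Pool.Agent.H.MP_be01ff_an.B

namespace Pool.Agent.H.MP_be01ff_an

open Set MeasureTheory intervalIntegral Filter Topology

lemma seq_step {V V' ρ R' u r C C2 : ℝ} (hr : 0 < r) (hC : 1 ≤ C) (hV : 0 < V) (hV' : 0 < V')
    (hρ : 0 ≤ ρ) (hR' : 0 ≤ R') (hu : 0 < u)
    (hC2 : C2 = (1 + r) * C + 4 * (2 * (1 + r) + 4 * (1 + r) ^ 2) * C ^ 2)
    (hs : 4 * C2 * u ≤ 1) (h1 : ρ ≤ C * u) (h2 : V * (1 - ρ - C * u ^ 2) ≤ V')
    (h3 : R' ≤ V * (ρ - (1 + r) * ρ ^ 2 + C * u ^ 3)) :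
    V' ^ (-r) ≤ V ^ (-r) + r * (ρ * V ^ (-r)) + C2 * u ^ 2 * V ^ (-r) ∧
    R' / V' * V' ^ (-r) ≤ ρ * V ^ (-r) + C2 * u ^ 2 * (ρ * V ^ (-r)) +
      C2 * u ^ 3 * V ^ (-r) := by
  have c1 : (1 + r) * C ≤ C2 := by rw [hC2]; exact le_add_of_nonneg_right (by positivity)
  have c2 : C ≤ (1 + r) * C := by nlinarith
  have c3 : 2 * C ≤ C2 := by
    rw [hC2]
    have : C ≤ C ^ 2 := by nlinarith
    have : C ^ 2 ≤ 4 * (2 * (1 + r) + 4 * (1 + r) ^ 2) * C ^ 2 := by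
      have : 1 ≤ 4 * (2 * (1 + r) + 4 * (1 + r) ^ 2) := by nlinarith
      nlinarith
    linarith
  have hu1 : u ≤ 1 / 4 := by
    have := mul_le_mul_of_nonneg_right (by linarith : 1 ≤ C2) hu.le
    linarith
  have hCu : (1 + r) * C * u ≤ 1 / 4 := by
    have := mul_le_mul_of_nonneg_right c1 hu.le
    linarith
  have huu : u ^ 2 ≤ u := by
    have := mul_le_mul_of_nonneg_right (by linarith : u ≤ 1) hu.le
    linarith
  obtain ⟨x, hx⟩ : ∃ x, x = ρ + C * u ^ 2 := ⟨_, rfl⟩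
  have hx0 : 0 ≤ x := by rw [hx]; positivity
  have hx1 : x ≤ 2 * C * u := by
    have : C * u ^ 2 ≤ C * u := by gcongr
    linarith
  have hx2 : (1 + r) * x ≤ 1 / 2 := by
    have := mul_le_mul_of_nonneg_left hx1 (by linarith : 0 ≤ 1 + r)
    linarith
  have hx3 : x ≤ 1 / 2 := by
    have := mul_nonneg hr.le hx0
    linarith
  have hx4 : x ^ 2 ≤ 4 * C ^ 2 * u ^ 2 := by
    have : x ^ 2 ≤ (2 * C * u) ^ 2 := by gcongr
    linarith
  have h2' : V * (1 - x) ≤ V' := by rw [hx]; linarith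
  have hp : 0 < V * (1 - x) := mul_pos hV (by linarith)
  have gen : ∀ s, 0 < s → s ≤ 1 + r → V' ^ (-s) ≤ V ^ (-s) * (1 + s * ρ + C2 * u ^ 2) := by
    intro s hs0 hs1
    have a1 := Real.rpow_le_rpow_of_nonpos hp h2' (z := -s) (by linarith)
    rw [Real.mul_rpow hV.le (by linarith)] at a1
    have a2 := one_sub_rpow_le hx0 hx3 hs0.le (by
      have := mul_le_mul_of_nonneg_right hs1 hx0
      linarith)
    have a3 : (2 * s + 4 * s ^ 2) * x ^ 2 ≤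
        (2 * (1 + r) + 4 * (1 + r) ^ 2) * (4 * C ^ 2 * u ^ 2) := by gcongr
    have a4 : s * (C * u ^ 2) ≤ (1 + r) * (C * u ^ 2) := by gcongr
    have a5 : (1 - x) ^ (-s) ≤ 1 + s * ρ + C2 * u ^ 2 := by
      have e : s * x = s * ρ + s * (C * u ^ 2) := by rw [hx]; ring
      rw [hC2]; linarith
    exact a1.trans (mul_le_mul_of_nonneg_left a5 (by positivity))
  have hw : 0 < V ^ (-r) := by positivity
  refine ⟨by have := gen r hr (by linarith); linarith, ?_⟩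
  have b1 := gen (1 + r) (by linarith) le_rfl
  have e1 : ∀ W : ℝ, 0 < W → W ^ (-(1 + r)) = W ^ (-r) / W := fun W hW => by
    rw [show -(1 + r) = -r - 1 by ring, Real.rpow_sub_one hW.ne']
  rw [e1 V' hV', e1 V hV] at b1
  have b2 : R' / V' * V' ^ (-r) = R' * (V' ^ (-r) / V') := by ring
  have hA : 0 ≤ 1 + (1 + r) * ρ + C2 * u ^ 2 := by
    have : 0 ≤ C2 := by linarith
    positivity
  have b3 : R' * (V' ^ (-r) / V') ≤ (V * (ρ - (1 + r) * ρ ^ 2 + C * u ^ 3)) *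
      (V ^ (-r) / V * (1 + (1 + r) * ρ + C2 * u ^ 2)) :=
    mul_le_mul h3 b1 (by positivity) (hR'.trans h3)
  have b4 : (V * (ρ - (1 + r) * ρ ^ 2 + C * u ^ 3)) *
      (V ^ (-r) / V * (1 + (1 + r) * ρ + C2 * u ^ 2)) = V ^ (-r) *
      ((ρ * (1 - (1 + r) * ρ) + C * u ^ 3) * (1 + (1 + r) * ρ + C2 * u ^ 2)) := by
    field_simp
  have hγρ : (1 + r) * ρ ≤ 1 / 4 := by
    have := mul_le_mul_of_nonneg_left h1 (by linarith : 0 ≤ 1 + r)
    linarith
  have hγρ0 : 0 ≤ (1 + r) * ρ := by positivity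
  have hC2u : C2 * u ^ 2 ≤ 1 / 4 := by
    have := mul_le_mul_of_nonneg_left huu (by linarith : 0 ≤ C2)
    linarith
  have hC2u0 : 0 ≤ C2 * u ^ 2 := by
    have : 0 ≤ C2 := by linarith
    positivity
  have b5 : (1 - (1 + r) * ρ) * (1 + (1 + r) * ρ + C2 * u ^ 2) ≤ 1 + C2 * u ^ 2 := by
    linarith [mul_nonneg hγρ0 hγρ0, mul_nonneg hγρ0 hC2u0]
  have b6 : C * u ^ 3 * (1 + (1 + r) * ρ + C2 * u ^ 2) ≤ C2 * u ^ 3 := by
    have : C * u ^ 3 * (1 + (1 + r) * ρ + C2 * u ^ 2) ≤ C * u ^ 3 * 2 :=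
      mul_le_mul_of_nonneg_left (by linarith) (by positivity)
    have h3 : 0 < u ^ 3 := by positivity
    linarith [mul_le_mul_of_nonneg_right c3 h3.le]
  have b7 : (ρ * (1 - (1 + r) * ρ) + C * u ^ 3) * (1 + (1 + r) * ρ + C2 * u ^ 2) ≤
      ρ + C2 * u ^ 2 * ρ + C2 * u ^ 3 := by
    have := mul_le_mul_of_nonneg_left b5 hρ
    linarith
  rw [b2]
  refine b3.trans ?_
  rw [b4]
  have := mul_le_mul_of_nonneg_left b7 hw.le
  linarith

lemma seq_lin {w q : ℕ → ℝ} {r C : ℝ} (hr : 0 < r) (hC : 0 < C) (n1 : ℕ)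
    (hw : ∀ n, 0 ≤ w n) (hq : ∀ n, 0 ≤ q n)
    (h : ∀ n, n1 ≤ n → w (n + 1) ≤ w n + r * q n + C * (1 / (n + 1 : ℝ)) ^ 2 * w n ∧
      q (n + 1) ≤ q n + C * (1 / (n + 1 : ℝ)) ^ 2 * q n + C * (1 / (n + 1 : ℝ)) ^ 3 * w n) :
    ∃ Λ, 0 < Λ ∧ ∃ n0 : ℕ, ∀ n, n0 ≤ n → w n ≤ Λ * (n + 1) := by
  obtain ⟨B, hB⟩ : ∃ B, B = 2 * C * (1 + 2 * r) := ⟨_, rfl⟩
  have hB0 : 0 < B := by rw [hB]; positivity
  obtain ⟨n2, hn2⟩ := exists_nat_ge (2 * B)
  obtain ⟨n0, hn0⟩ : ∃ n0, n0 = max n1 n2 := ⟨_, rfl⟩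
  have hn01 : n1 ≤ n0 := by omega
  have hn02 : 2 * B ≤ n0 := hn2.trans (by exact_mod_cast (by omega : n2 ≤ n0))
  obtain ⟨Q, hQ⟩ : ∃ Q, Q = 2 * q n0 + w n0 / r + 1 := ⟨_, rfl⟩
  have hQ0 : 0 < Q := by rw [hQ]; have := hq n0; have := hw n0; positivity
  refine ⟨2 * r * Q, by positivity, n0, fun n hn => ?_⟩
  suffices hh : q n ≤ Q * (1 - B * (1 / (n + 1 : ℝ))) ∧ w n ≤ 2 * r * Q * (n + 1) from hh.2
  induction n, hn using Nat.le_induction with
  | base =>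
    have a0 : (0:ℝ) ≤ n0 := Nat.cast_nonneg _
    have a1 : B * (1 / (n0 + 1 : ℝ)) ≤ 1 / 2 := by
      rw [mul_one_div, div_le_iff₀ (by positivity)]; linarith
    have a2 : 0 ≤ w n0 / r := div_nonneg (hw n0) hr.le
    constructor
    · have : Q * (1 / 2) ≤ Q * (1 - B * (1 / (n0 + 1 : ℝ))) :=
        mul_le_mul_of_nonneg_left (by linarith) hQ0.le
      linarith
    · have a3 : w n0 = r * (w n0 / r) := by field_simp
      have a4 : r * (w n0 / r) ≤ r * Q :=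
        mul_le_mul_of_nonneg_left (by linarith [hq n0]) hr.le
      have a5 : 0 < r * Q := by positivity
      have a6 := mul_nonneg a5.le a0
      linarith
  | succ n hn ih =>
    obtain ⟨i1, i2⟩ := ih
    obtain ⟨s1, s2⟩ := h n (hn01.trans hn)
    have a0 : (n0:ℝ) ≤ n := by exact_mod_cast hn
    obtain ⟨θ, hθ⟩ : ∃ θ : ℝ, θ = n + 1 := ⟨_, rfl⟩
    have hθ0 : 1 ≤ θ := by rw [hθ]; linarith [Nat.cast_nonneg (α := ℝ) n]
    have hθB : 2 * B ≤ θ := by linarith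
    push_cast
    rw [← hθ] at i1 i2 s1 s2 ⊢
    obtain ⟨u, hu⟩ : ∃ u, u = 1 / θ := ⟨_, rfl⟩
    rw [← hu] at i1 s1 s2
    have hu0 : 0 < u := by rw [hu]; positivity
    have huθ : u * θ = 1 := by rw [hu]; field_simp
    have hqQ : q n ≤ Q := by
      have : 0 ≤ Q * (B * u) := by positivity
      linarith
    have huw : u * w n ≤ 2 * r * Q := by
      have := mul_le_mul_of_nonneg_left i2 hu0.le
      calc u * w n ≤ u * (2 * r * Q * θ) := this
        _ = 2 * r * Q * (u * θ) := by ring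
        _ = 2 * r * Q := by rw [huθ, mul_one]
    have hCu : C * u ≤ 1 / 2 := by
      have b1 : C ≤ B := by
        have := mul_pos hC hr
        rw [hB]; linarith
      have b2 : 2 * B * u ≤ θ * u := by gcongr
      have b3 := mul_le_mul_of_nonneg_right b1 hu0.le
      linarith
    constructor
    · have b1 : C * u ^ 2 * q n ≤ C * u ^ 2 * Q := by gcongr
      have b2 : C * u ^ 3 * w n ≤ C * u ^ 2 * (2 * r * Q) := by
        have := mul_le_mul_of_nonneg_left huw (by positivity : 0 ≤ C * u ^ 2)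
        linarith [show C * u ^ 3 * w n = C * u ^ 2 * (u * w n) by ring]
      have b3 : 1 / (θ + 1) ≤ u - u ^ 2 / 2 := by
        rw [div_le_iff₀ (by positivity)]
        have : u ≤ 1 := by
          have := mul_le_mul_of_nonneg_left hθ0 hu0.le
          linarith
        have e : (u - u ^ 2 / 2) * (θ + 1) = u * θ + u - u * (u * θ) / 2 - u ^ 2 / 2 := by ring
        rw [e, huθ]
        have := mul_le_mul_of_nonneg_left this hu0.le
        linarith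
      have b4 : Q * (1 - B * (u - u ^ 2 / 2)) ≤ Q * (1 - B * (1 / (θ + 1))) := by gcongr
      have e : Q * (1 - B * (u - u ^ 2 / 2)) =
          Q * (1 - B * u) + C * u ^ 2 * Q + C * u ^ 2 * (2 * r * Q) := by rw [hB]; ring
      linarith
    · have b1 : r * q n ≤ r * Q := by gcongr
      have b2 : C * u ^ 2 * w n ≤ 1 / 2 * (2 * r * Q) := by
        rw [show C * u ^ 2 * w n = C * u * (u * w n) by ring]
        exact mul_le_mul hCu huw (mul_nonneg hu0.le (hw n)) (by norm_num)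
      linarith

lemma seq_lower {V R : ℕ → ℝ} {r C : ℝ} (hr : 0 < r) (hC : 1 ≤ C) (n1 : ℕ)
    (hV : ∀ n, 0 < V n) (hR : ∀ n, 0 ≤ R n)
    (h : ∀ n, n1 ≤ n → R n / V n ≤ C * (1 / (n + 1 : ℝ)) ∧
      V n * (1 - R n / V n - C * (1 / (n + 1 : ℝ)) ^ 2) ≤ V (n + 1) ∧
      R (n + 1) ≤ V n * (R n / V n - (1 + r) * (R n / V n) ^ 2 + C * (1 / (n + 1 : ℝ)) ^ 3)) :
    ∃ m, 0 < m ∧ ∃ n0 : ℕ, ∀ n, n0 ≤ n → m * (n + 1 : ℝ) ^ (-(1 / r)) ≤ V n := by
  obtain ⟨C2, hC2⟩ : ∃ C2, C2 = (1 + r) * C + 4 * (2 * (1 + r) + 4 * (1 + r) ^ 2) * C ^ 2 :=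
    ⟨_, rfl⟩
  have hC20 : 0 < C2 := by rw [hC2]; positivity
  obtain ⟨n2, hn2⟩ := exists_nat_ge (4 * C2)
  obtain ⟨Λ, hΛ, n0, hn0⟩ := seq_lin (w := fun n => V n ^ (-r))
    (q := fun n => R n / V n * V n ^ (-r)) hr hC20 (max n1 n2)
    (fun n => by have := hV n; positivity)
    (fun n => by have := hV n; have := hR n; positivity) (fun n hn => by
      obtain ⟨h1, h2, h3⟩ := h n (by omega)
      have a1 : (n2:ℝ) ≤ n := by exact_mod_cast (by omega : n2 ≤ n)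
      exact seq_step hr hC (hV n) (hV (n + 1)) (div_nonneg (hR n) (hV n).le) (hR (n + 1))
        (by positivity) hC2 (by rw [mul_one_div, div_le_one (by positivity)]; linarith) h1 h2 h3)
  refine ⟨Λ ^ (-(1 / r)), by positivity, n0, fun n hn => ?_⟩
  have a1 := hn0 n hn
  have a2 := Real.rpow_le_rpow_of_nonpos (by have := hV n; positivity) a1 (z := -(1 / r))
    (by have : 0 < 1 / r := by positivity
        linarith)
  rw [← Real.rpow_mul (hV n).le, neg_mul_neg, mul_one_div_cancel hr.ne', Real.rpow_one,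
    Real.mul_rpow hΛ.le (by positivity)] at a2
  exact a2

end Pool.Agent.H.MP_be01ff_an
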