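import Pool.Agent.H.MP_be01ff_an.B

namespace Pool.Agent.H.MP_be01ff_an

open Set MeasureTheory intervalIntegral Filter Topology

noncomputable def Vf (p : ℝ → ℝ) : ℝ := ∫ y in (0:ℝ)..2, p y ^ 2

noncomputable def Df (c α : ℝ) (p : ℝ → ℝ) : ℝ :=
  ∫ y in (0:ℝ)..2, ∫ z in (0:ℝ)..2, Wf c α (p y - p z)

noncomputable def Gb (c α : ℝ) (p : ℝ → ℝ) (y : ℝ) : ℝ := ∫ z in (0:ℝ)..2, Gf c α (p y - p z)

lemma I_mono {f g : ℝ → ℝ} {a b : ℝ} (hab : a ≤ b) (hf : Continuous f) (hg : Continuous g)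
    (h : ∀ y ∈ Icc a b, f y ≤ g y) : ∫ y in a..b, f y ≤ ∫ y in a..b, g y :=
  intervalIntegral.integral_mono_on hab (hf.intervalIntegrable _ _) (hg.intervalIntegrable _ _) h

lemma I_abs {f g : ℝ → ℝ} {a b : ℝ} (hab : a ≤ b) (hg : Continuous g)
    (h : ∀ y ∈ Icc a b, |f y| ≤ g y) : |∫ y in a..b, f y| ≤ ∫ y in a..b, g y := by
  rw [← Real.norm_eq_abs]
  exact intervalIntegral.norm_integral_le_of_norm_le hab
    (Eventually.of_forall fun y hy => h y (Ioc_subset_Icc_self hy)) (hg.intervalIntegrable _ _)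

lemma I_lin {f g h : ℝ → ℝ} (hf : Continuous f) (hg : Continuous g) (hh : Continuous h)
    (a b u v w : ℝ) : ∫ y in a..b, (u * f y + v * g y + w * h y) =
      u * (∫ y in a..b, f y) + v * (∫ y in a..b, g y) + w * ∫ y in a..b, h y := by
  rw [intervalIntegral.integral_add (Continuous.intervalIntegrable (by fun_prop) _ _)
    (Continuous.intervalIntegrable (by fun_prop) _ _),
    intervalIntegral.integral_add (Continuous.intervalIntegrable (by fun_prop) _ _)
    (Continuous.intervalIntegrable (by fun_prop) _ _)]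
  simp only [intervalIntegral.integral_const_mul]

lemma Vf_nonneg (p : ℝ → ℝ) : 0 ≤ Vf p :=
  intervalIntegral.integral_nonneg zero_le_two (fun _ _ => sq_nonneg _)

lemma Df_nonneg {c α : ℝ} (hc : 0 < c) (hα : 0 < α) (p : ℝ → ℝ) : 0 ≤ Df c α p :=
  intervalIntegral.integral_nonneg zero_le_two (fun _ _ =>
    intervalIntegral.integral_nonneg zero_le_two (fun _ _ => Wf_nonneg hc hα _))

lemma Gb_cont {c α : ℝ} (hα : 0 < α) {p : ℝ → ℝ} (hp : Continuous p) : Continuous (Gb c α p) := by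
  have := Gf_cont (c := c) hα
  exact intervalIntegral.continuous_parametric_intervalIntegral_of_continuous'
    (f := fun y z => Gf c α (p y - p z)) (by fun_prop) 0 2

lemma sym_int {c α : ℝ} (hα : 0 < α) {p q : ℝ → ℝ} (hp : Continuous p) (hq : Continuous q) :
    ∫ y in (0:ℝ)..2, ∫ z in (0:ℝ)..2, Gf c α (p y - p z) * (q y - q z) =
      2 * ∫ y in (0:ℝ)..2, Gb c α p y * q y := by
  have hG := Gf_cont (c := c) hα
  have hb := Gb_cont (c := c) hα hp
  have e1 : ∀ y, ∫ z in (0:ℝ)..2, Gf c α (p y - p z) * (q y - q z) =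
      Gb c α p y * q y + ∫ z in (0:ℝ)..2, Gf c α (p z - p y) * q z := fun y => by
    unfold Gb
    rw [← intervalIntegral.integral_mul_const, ← intervalIntegral.integral_add
      (Continuous.intervalIntegrable (by fun_prop) _ _)
      (Continuous.intervalIntegrable (by fun_prop) _ _)]
    congr 1; ext z
    rw [← neg_sub (p y) (p z), Gf_neg]; ring
  have c1 : Continuous fun y => ∫ z in (0:ℝ)..2, Gf c α (p z - p y) * q z :=
    intervalIntegral.continuous_parametric_intervalIntegral_of_continuous'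
      (f := fun y z => Gf c α (p z - p y) * q z) (by fun_prop) 0 2
  simp only [e1]
  rw [intervalIntegral.integral_add (Continuous.intervalIntegrable (by fun_prop) _ _)
    (c1.intervalIntegrable _ _), swap (F := fun y z => Gf c α (p z - p y) * q z) (by fun_prop)]
  simp only [intervalIntegral.integral_mul_const]
  unfold Gb
  ring

lemma Gb_p {c α : ℝ} (hα : 0 < α) {p : ℝ → ℝ} (hp : Continuous p) :
    ∫ y in (0:ℝ)..2, Gb c α p y * p y = (1 + α / 2) * Df c α p := by
  have h := sym_int (c := c) hα hp hp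
  simp only [mul_Gf hα, intervalIntegral.integral_const_mul] at h
  unfold Df
  linarith

lemma sq_diff {q : ℝ → ℝ} (hq : Continuous q) (y : ℝ) :
    ∫ z in (0:ℝ)..2, (q y - q z) ^ 2 ≤ 4 * q y ^ 2 + 2 * Vf q := by
  have h1 := I_mono (f := fun z => (q y - q z) ^ 2)
    (g := fun z => (2 * q y ^ 2) * 1 + 2 * q z ^ 2 + 0 * 0) zero_le_two (by fun_prop) (by fun_prop)
    (fun z _ => by nlinarith [sq_nonneg (q y + q z)])
  rw [I_lin (by fun_prop) (by fun_prop) (by fun_prop)] at h1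
  simp only [intervalIntegral.integral_const, smul_eq_mul] at h1
  unfold Vf
  linarith

lemma Df_step {c α R κ : ℝ} (hα : 0 < α)
    (hl : ∀ x y, |x| ≤ R → |y| ≤ R → |Gf c α x - Gf c α y| ≤ κ * |x - y|) (hκ : 0 ≤ κ)
    {p q : ℝ → ℝ} (hp : Continuous p) (hq : Continuous q) (hpb : ∀ y z, |p y - p z| ≤ R)
    (hqb : ∀ y z, |q y - q z| ≤ R) :
    Df c α q ≤ Df c α p + 2 * (∫ y in (0:ℝ)..2, Gb c α p y * (q y - p y)) +
      8 * κ * Vf (fun y => q y - p y) := by
  have hG := Gf_cont (c := c) hα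
  have hW := Wf_cont (c := c) hα
  have c1 : ∀ p : ℝ → ℝ, Continuous p →
      Continuous fun y => ∫ z in (0:ℝ)..2, Wf c α (p y - p z) := fun p hp =>
    intervalIntegral.continuous_parametric_intervalIntegral_of_continuous'
      (f := fun y z => Wf c α (p y - p z)) (by fun_prop) 0 2
  have c2 : Continuous fun y => ∫ z in (0:ℝ)..2,
      Gf c α (p y - p z) * ((q y - p y) - (q z - p z)) :=
    intervalIntegral.continuous_parametric_intervalIntegral_of_continuous'
      (f := fun y z => Gf c α (p y - p z) * ((q y - p y) - (q z - p z))) (by fun_prop) 0 2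
  have e1 : ∀ y, ∫ z in (0:ℝ)..2, Wf c α (q y - q z) ≤
      1 * (∫ z in (0:ℝ)..2, Wf c α (p y - p z)) +
      1 * (∫ z in (0:ℝ)..2, Gf c α (p y - p z) * ((q y - p y) - (q z - p z))) +
      κ * (4 * (q y - p y) ^ 2 + 2 * Vf (fun y => q y - p y)) := fun y => by
    have a1 := I_mono (f := fun z => Wf c α (q y - q z))
      (g := fun z => 1 * Wf c α (p y - p z) +
        1 * (Gf c α (p y - p z) * ((q y - p y) - (q z - p z))) +
        κ * ((q y - p y) - (q z - p z)) ^ 2) zero_le_two (by fun_prop) (by fun_prop)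
      (fun z _ => by
        have := Wf_taylor hα hl hκ (hpb y z) (hqb y z)
        rw [show q y - q z - (p y - p z) = (q y - p y) - (q z - p z) by ring] at this
        linarith)
    rw [I_lin (by fun_prop) (by fun_prop) (by fun_prop)] at a1
    have a2 := sq_diff (q := fun y => q y - p y) (by fun_prop) y
    have a3 := mul_le_mul_of_nonneg_left a2 hκ
    linarith
  have h1 := I_mono zero_le_two (c1 q hq) (by have := c1 p hp; fun_prop) (fun y _ => e1 y)
  rw [I_lin (c1 p hp) c2 (by fun_prop), sym_int (q := fun y => q y - p y) hα hp (by fun_prop)]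
    at h1
  have h2 := I_lin (f := fun y => (q y - p y) ^ 2) (g := fun _ => Vf (fun y => q y - p y))
    (h := fun _ => 0) (by fun_prop) (by fun_prop) (by fun_prop) 0 2 4 2 0
  simp only [zero_mul, add_zero, intervalIntegral.integral_const, smul_eq_mul] at h2
  rw [h2] at h1
  unfold Df
  have e : ∫ y in (0:ℝ)..2, (q y - p y) ^ 2 = Vf (fun y => q y - p y) := rfl
  rw [e] at h1
  linarith

lemma Df_le {c α R κ : ℝ} (hα : 0 < α)
    (hl : ∀ x y, |x| ≤ R → |y| ≤ R → |Gf c α x - Gf c α y| ≤ κ * |x - y|) (hκ : 0 ≤ κ)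
    {q : ℝ → ℝ} (hq : Continuous q) (hqb : ∀ y z, |q y - q z| ≤ R) :
    Df c α q ≤ 8 * κ * Vf q := by
  have hR : 0 ≤ R := (abs_nonneg _).trans (hqb 0 0)
  have h := Df_step (p := fun _ => 0) hα hl hκ continuous_const hq (fun _ _ => by simpa) hqb
  have e : α + 2 ≠ 0 := by linarith
  simpa [Df, Gb, Gf_zero, Wf, Real.zero_rpow e] using h

lemma J_ge {c α : ℝ} (hα : 0 < α) {p : ℝ → ℝ} (hp : Continuous p) (l : ℝ) :
    2 * l * ((1 + α / 2) * Df c α p) - l ^ 2 * Vf p ≤ Vf (Gb c α p) := by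
  have hb := Gb_cont (c := c) hα hp
  have h1 := I_lin (f := fun y => Gb c α p y ^ 2) (g := fun y => Gb c α p y * p y)
    (h := fun y => p y ^ 2) (by fun_prop) (by fun_prop) (by fun_prop) 0 2 1 (-2 * l) (l ^ 2)
  have h2 : 0 ≤ ∫ y in (0:ℝ)..2,
      (1 * Gb c α p y ^ 2 + -2 * l * (Gb c α p y * p y) + l ^ 2 * p y ^ 2) :=
    intervalIntegral.integral_nonneg zero_le_two
      (fun y _ => by nlinarith [sq_nonneg (Gb c α p y - l * p y)])
  rw [h1, Gb_p hα hp] at h2
  unfold Vf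
  linarith

lemma Vf_add {p q : ℝ → ℝ} (hp : Continuous p) (hq : Continuous q) :
    Vf p + 2 * (∫ y in (0:ℝ)..2, p y * (q y - p y)) ≤ Vf q := by
  have h1 := I_mono (f := fun y => 1 * p y ^ 2 + 2 * (p y * (q y - p y)) + 0 * 0)
    (g := fun y => q y ^ 2) zero_le_two (by fun_prop) (by fun_prop)
    (fun y _ => by nlinarith [sq_nonneg (q y - p y)])
  rw [I_lin (by fun_prop) (by fun_prop) (by fun_prop)] at h1
  unfold Vf
  linarith

lemma period {c α : ℝ} (hα : 0 < α) {P : ℝ → ℝ → ℝ} (h : Sol (Gf c α) P) {t0 M κ : ℝ}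
    (h0 : 0 ≤ t0) (hb : ∀ s, t0 ≤ s → ∀ y, |P s y| ≤ M)
    (hl : ∀ x y, |x| ≤ 2 * M → |y| ≤ 2 * M → |Gf c α x - Gf c α y| ≤ κ * |x - y|) (hκ : 0 ≤ κ)
    (hκ1 : κ ≤ 1 / 6) (hV : 0 < Vf (P t0)) :
    (∀ s ∈ Icc t0 (t0 + 1), Vf (P t0) * (1 - 72 * κ) ≤ Vf (P s)) ∧
    Vf (P t0) - (1 + α / 2) * Df c α (P t0) - 216 * κ ^ 2 * Vf (P t0) ≤ Vf (P (t0 + 1)) ∧
    Df c α (P (t0 + 1)) ≤ Df c α (P t0) - Vf (Gb c α (P t0)) + 3024 * κ ^ 3 * Vf (P t0) := by
  have hG := Gf_cont (c := c) hα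
  have hM : 0 ≤ M := (abs_nonneg _).trans (hb t0 le_rfl 0)
  have cP : ∀ s, Continuous (P s) := fun s => h.cont' continuous_const continuous_id
  have cp := cP t0
  have hd : ∀ s, t0 ≤ s → ∀ y z, |P s y - P s z| ≤ 2 * M := fun s hs y z =>
    (abs_sub _ _).trans (by linarith [hb s hs y, hb s hs z])
  have hG0 : ∀ x, |x| ≤ 2 * M → |Gf c α x| ≤ κ * |x| := fun x hx => by
    simpa [Gf_zero] using hl x 0 hx (by simpa using hM)
  obtain ⟨σ, hσ⟩ : ∃ σ, σ = Real.sqrt (Vf (P t0)) := ⟨_, rfl⟩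
  have hσ0 : 0 < σ := by rw [hσ]; exact Real.sqrt_pos.2 hV
  have hσ2 : σ ^ 2 = Vf (P t0) := by rw [hσ]; exact Real.sq_sqrt hV.le
  obtain ⟨H, hH⟩ : ∃ H : ℝ → ℝ, H = fun y => |P t0 y| + σ := ⟨_, rfl⟩
  have cH : Continuous H := by rw [hH]; fun_prop
  have H1 : ∀ y, |P t0 y| ≤ H y := fun y => by rw [hH]; simp only; linarith
  have H2 : ∀ y, σ ≤ H y := fun y => by rw [hH]; simp only; linarith [abs_nonneg (P t0 y)]
  have H0 : ∀ y, 0 ≤ H y := fun y => hσ0.le.trans (H2 y)
  have H3 : ∫ z in (0:ℝ)..2, H z ≤ 4 * σ := by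
    have a1 := I_mono (f := H) (g := fun z => 1 / (2 * σ) * P t0 z ^ 2 + (3 * σ / 2) * 1 + 0 * 0)
      zero_le_two cH (by fun_prop) (fun z _ => by
        rw [hH]; simp only
        have : |P t0 z| ≤ 1 / (2 * σ) * P t0 z ^ 2 + σ / 2 := by
          rw [← sq_abs (P t0 z), ← sub_nonneg]
          have : 1 / (2 * σ) * |P t0 z| ^ 2 + σ / 2 - |P t0 z| =
              1 / (2 * σ) * (|P t0 z| - σ) ^ 2 := by field_simp; ring
          rw [this]; positivity
        linarith)
    rw [I_lin (by fun_prop) (by fun_prop) (by fun_prop)] at a1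
    simp only [intervalIntegral.integral_const, smul_eq_mul] at a1
    have e : ∫ y in (0:ℝ)..2, P t0 y ^ 2 = σ ^ 2 := hσ2.symm
    rw [e, show 1 / (2 * σ) * σ ^ 2 = σ / 2 by field_simp] at a1
    linarith
  have H4 : ∀ k, 0 ≤ k → ∀ f : ℝ → ℝ, (∀ y, |f y| ≤ k * H y ^ 2) →
      |∫ y in (0:ℝ)..2, f y| ≤ 6 * k * Vf (P t0) := fun k hk f hf => by
    have a1 := I_abs (f := f) (g := fun z => (2 * k) * P t0 z ^ 2 + (2 * k * σ ^ 2) * 1 + 0 * 0)
      zero_le_two (by fun_prop) (fun z _ => by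
        refine (hf z).trans ?_
        have : H z ^ 2 ≤ 2 * P t0 z ^ 2 + 2 * σ ^ 2 := by
          rw [hH, ← sq_abs (P t0 z)]; simp only
          nlinarith [sq_nonneg (|P t0 z| - σ)]
        have := mul_le_mul_of_nonneg_left this hk
        linarith)
    rw [I_lin (by fun_prop) (by fun_prop) (by fun_prop)] at a1
    simp only [intervalIntegral.integral_const, smul_eq_mul] at a1
    have e : ∫ y in (0:ℝ)..2, P t0 y ^ 2 = Vf (P t0) := rfl
    rw [e, hσ2] at a1
    linarith
  have H5 : ∀ k, 0 ≤ k → ∀ y, ∀ s ∈ Icc t0 (t0 + 1), ∀ f : ℝ → ℝ,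
      (∀ r ∈ Icc t0 s, |f r| ≤ k * (H y + H (2 * r - y))) →
      |∫ r in t0..s, f r| ≤ 3 * k * H y := fun k hk y s hs f hf => by
    have c1 : Continuous fun r => k * (H y + H (2 * r - y)) := by fun_prop
    have a1 := I_abs hs.1 c1 hf
    have a2 : ∫ r in t0..s, k * (H y + H (2 * r - y)) ≤
        ∫ r in t0..(t0 + 1), k * (H y + H (2 * r - y)) :=
      intervalIntegral.integral_mono_interval le_rfl hs.1 hs.2
        (Eventually.of_forall fun r => mul_nonneg hk (add_nonneg (H0 _) (H0 _)))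
        (c1.intervalIntegrable _ _)
    have a4 : ∫ r in t0..(t0 + 1), k * (H y + H (2 * r - y)) =
        k * (H y + 1 / 2 * ∫ z in (0:ℝ)..2, H z) := by
      rw [intervalIntegral.integral_const_mul, intervalIntegral.integral_add (by simp)
        (Continuous.intervalIntegrable (by fun_prop) _ _),
        avg (f := H) (fun z => by rw [hH]; simp only [h.per])]
      simp only [intervalIntegral.integral_const, smul_eq_mul, add_sub_cancel_left, one_mul]
    have a3 : k * (H y + 1 / 2 * ∫ z in (0:ℝ)..2, H z) ≤ k * (3 * H y) :=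
      mul_le_mul_of_nonneg_left (by linarith [H2 y]) hk
    linarith
  have E1 : ∀ s ∈ Icc t0 (t0 + 1), ∀ y, |P s y - P t0 y| ≤ 6 * κ * H y := by
    intro s hs y
    have key := iter_bound (ι := Icc t0 (t0 + 1) × ℝ) (F := fun p => |P p.1.1 p.2 - P t0 p.2|)
      (w := fun p => H p.2) (η := 3 * κ) (B0 := 2 * M / σ) (by positivity) (by positivity)
      (fun p => H0 _) (fun p => by
        have a1 : |P p.1.1 p.2 - P t0 p.2| ≤ 2 * M :=
          (abs_sub _ _).trans (by linarith [hb _ p.1.2.1 p.2, hb _ le_rfl p.2])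
        have a2 : 2 * M / σ * σ ≤ 2 * M / σ * H p.2 :=
          mul_le_mul_of_nonneg_left (H2 _) (by positivity)
        rw [div_mul_cancel₀ _ hσ0.ne'] at a2
        linarith) (fun B hB hh p => by
        have a1 := H5 (κ * (1 + B)) (by positivity) p.2 p.1.1 p.1.2
          (fun r => Gf c α (P r p.2 - P r (2 * r - p.2))) (fun r hr => by
            have hr' : r ∈ Icc t0 (t0 + 1) := ⟨hr.1, hr.2.trans p.1.2.2⟩
            have b1 := hh (⟨r, hr'⟩, p.2)
            have b2 := hh (⟨r, hr'⟩, 2 * r - p.2)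
            simp only at b1 b2
            refine (hG0 _ (hd r hr.1 _ _)).trans ?_
            rw [mul_assoc]
            refine mul_le_mul_of_nonneg_left ?_ hκ
            have b3 := abs_le.1 (H1 p.2)
            have b4 := abs_le.1 (H1 (2 * r - p.2))
            rw [abs_le] at b1 b2 ⊢
            constructor <;> linarith [b1.1, b1.2, b2.1, b2.2])
        rw [h.incr h0 (h0.trans p.1.2.1) p.2, sub_sub_cancel_left, abs_neg]
        refine a1.trans (mul_le_mul_of_nonneg_right ?_ (H0 _))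
        nlinarith) (⟨s, hs⟩, y)
    linarith
  have E2 : ∀ y, |P (t0 + 1) y - P t0 y + 1 / 2 * Gb c α (P t0) y| ≤ 18 * κ ^ 2 * H y := by
    intro y
    have a1 := H5 (6 * κ ^ 2) (by positivity) y (t0 + 1) ⟨by linarith, le_rfl⟩
      (fun r => Gf c α (P t0 y - P t0 (2 * r - y)) - Gf c α (P r y - P r (2 * r - y)))
      (fun r hr => by
        refine (hl _ _ (hd t0 le_rfl _ _) (hd r hr.1 _ _)).trans ?_
        rw [show 6 * κ ^ 2 * (H y + H (2 * r - y)) = κ * (6 * κ * H y + 6 * κ * H (2 * r - y))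
          by ring]
        refine mul_le_mul_of_nonneg_left ?_ hκ
        have b1 := abs_le.1 (E1 r hr y)
        have b2 := abs_le.1 (E1 r hr (2 * r - y))
        rw [abs_le]
        constructor <;> linarith [b1.1, b1.2, b2.1, b2.2])
    rw [intervalIntegral.integral_sub (Continuous.intervalIntegrable (by fun_prop) _ _)
      ((h.contg y).intervalIntegrable _ _),
      avg (f := fun z => Gf c α (P t0 y - P t0 z)) (fun z => by simp only [h.per])] at a1
    rw [h.incr h0 (by linarith : 0 ≤ t0 + 1) y]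
    unfold Gb
    refine le_of_eq_of_le ?_ (a1.trans (le_of_eq (by ring)))
    congr 1; ring
  have E3 : ∀ y, |Gb c α (P t0) y| ≤ 6 * κ * H y := by
    intro y
    have a1 := H5 κ hκ y (t0 + 1) ⟨by linarith, le_rfl⟩
      (fun r => Gf c α (P t0 y - P t0 (2 * r - y))) (fun r _ =>
        (hG0 _ (hd t0 le_rfl _ _)).trans (mul_le_mul_of_nonneg_left
          ((abs_sub _ _).trans (add_le_add (H1 _) (H1 _))) hκ))
    rw [avg (f := fun z => Gf c α (P t0 y - P t0 z)) (fun z => by simp only [h.per]), abs_mul,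
      abs_of_pos (by norm_num : (0:ℝ) < 1 / 2)] at a1
    unfold Gb
    linarith
  have cb := Gb_cont (c := c) hα cp
  have cq := cP (t0 + 1)
  refine ⟨fun s hs => ?_, ?_, ?_⟩
  · have a1 := Vf_add cp (cP s)
    have a2 := H4 (6 * κ) (by positivity) (fun y => P t0 y * (P s y - P t0 y)) (fun y => by
      rw [abs_mul]
      have := mul_le_mul (H1 y) (E1 s hs y) (abs_nonneg _) (H0 y)
      linarith)
    have := (abs_le.1 a2).1
    linarith
  · have a1 := Vf_add cp cq
    have a2 := H4 (18 * κ ^ 2) (by positivity)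
      (fun y => P t0 y * (P (t0 + 1) y - P t0 y + 1 / 2 * Gb c α (P t0) y)) (fun y => by
      rw [abs_mul]
      have := mul_le_mul (H1 y) (E2 y) (abs_nonneg _) (H0 y)
      linarith)
    have a3 := I_lin (f := fun y => P t0 y * (P (t0 + 1) y - P t0 y))
      (g := fun y => Gb c α (P t0) y * P t0 y) (h := fun _ => 0) (by fun_prop) (by fun_prop)
      (by fun_prop) 0 2 1 (1 / 2) 0
    rw [Gb_p hα cp] at a3
    have e : (fun y => P t0 y * (P (t0 + 1) y - P t0 y + 1 / 2 * Gb c α (P t0) y)) =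
        fun y => 1 * (P t0 y * (P (t0 + 1) y - P t0 y)) + 1 / 2 * (Gb c α (P t0) y * P t0 y) +
          0 * 0 := by ext y; ring
    rw [e, a3] at a2
    have := (abs_le.1 a2).1
    linarith
  · have a1 := Df_step hα hl hκ cp cq (hd t0 le_rfl) (hd (t0 + 1) (by linarith))
    have a2 := H4 (108 * κ ^ 3) (by positivity)
      (fun y => Gb c α (P t0) y * (P (t0 + 1) y - P t0 y + 1 / 2 * Gb c α (P t0) y)) (fun y => by
      rw [abs_mul]
      have := mul_le_mul (E3 y) (E2 y) (abs_nonneg _) (mul_nonneg (by positivity) (H0 y))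
      linarith)
    have a3 := I_lin (f := fun y => Gb c α (P t0) y * (P (t0 + 1) y - P t0 y))
      (g := fun y => Gb c α (P t0) y ^ 2) (h := fun _ => 0) (by fun_prop) (by fun_prop)
      (by fun_prop) 0 2 1 (1 / 2) 0
    have e : (fun y => Gb c α (P t0) y * (P (t0 + 1) y - P t0 y + 1 / 2 * Gb c α (P t0) y)) =
        fun y => 1 * (Gb c α (P t0) y * (P (t0 + 1) y - P t0 y)) +
          1 / 2 * Gb c α (P t0) y ^ 2 + 0 * 0 := by ext y; ring
    rw [e, a3] at a2
    have a4 := H4 (36 * κ ^ 2) (by positivity) (fun y => (P (t0 + 1) y - P t0 y) ^ 2)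
      (fun y => by
        rw [abs_pow]
        have := pow_le_pow_left₀ (abs_nonneg _) (E1 (t0 + 1) ⟨by linarith, le_rfl⟩ y) 2
        linarith)
    have a5 : Vf (fun y => P (t0 + 1) y - P t0 y) ≤ 6 * (36 * κ ^ 2) * Vf (P t0) :=
      (abs_le.1 a4).2
    have a6 := mul_le_mul_of_nonneg_left a5 (by positivity : 0 ≤ 8 * κ)
    have a7 := (abs_le.1 a2).2
    have e2 : ∫ y in (0:ℝ)..2, Gb c α (P t0) y ^ 2 = Vf (Gb c α (P t0)) := rfl
    rw [e2] at a7
    have : 0 ≤ κ ^ 3 * Vf (P t0) := by positivity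
    linarith

end Pool.Agent.H.MP_be01ff_an
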