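import Pool.Agent.H.MP_be01ff_an.C
import Pool.Agent.H.MP_be01ff_an.D

namespace Pool.Agent.H.MP_be01ff_an

open Set MeasureTheory intervalIntegral Filter Topology

lemma back_uniq {c α : ℝ} (hc : 0 < c) (hα : 0 < α) {P : ℝ → ℝ → ℝ} (h : Sol (Gf c α) P)
    {t1 : ℝ} (h1 : 0 ≤ t1) (hz : ∀ y, P t1 y = 0) (y : ℝ) : P 0 y = 0 := by
  obtain ⟨R, hR, hb⟩ := per_bdd h.cont h.per (2 * t1)
  have hb' : ∀ s, |s| ≤ t1 → ∀ y, |P (t1 + s) y| ≤ R := fun s hs y =>
    hb _ (by rw [abs_le] at hs ⊢; constructor <;> linarith) y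
  have key := gron (F := fun s y => P (t1 + s) y) (T := t1) (L := c * (α + 1) * (2 * R) ^ α)
    (η := 0) (ε := 0) (by positivity) le_rfl le_rfl h1 hR.le hb' (fun t ht y => by
      refine ⟨fun s => - Gf c α (P (t1 + s) y - P (t1 + s) (2 * (t1 + s) - y)), fun _ => y,
        fun s => 2 * (t1 + s) - y, ?_, fun s hs => ?_⟩
      · rw [h.incr h1 (by linarith [(abs_le.1 ht).1]) y, hz, intervalIntegral.integral_neg,
          intervalIntegral.integral_comp_add_left
            (fun s => Gf c α (P s y - P s (2 * s - y))) t1]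
        simp
      · have a1 := hb' s hs y
        have a2 := hb' s hs (2 * (t1 + s) - y)
        have a3 := Gf_lip (R := 2 * R) hc hα (x := P (t1 + s) y - P (t1 + s) (2 * (t1 + s) - y))
          (y := 0) ((abs_sub _ _).trans (by linarith)) (by simp; linarith)
        rw [Gf_zero, sub_zero, sub_zero] at a3
        rw [abs_neg, zero_add]
        exact a3.trans (mul_le_mul_of_nonneg_left (abs_sub _ _) (by positivity)))
    (-t1) (by rw [abs_neg, abs_of_nonneg h1]) y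
  simpa using key

lemma Vf_pos {p : ℝ → ℝ} (hp : Continuous p) (hper : ∀ y, p (y + 2) = p y) {y : ℝ}
    (hy : p y ≠ 0) : 0 < Vf p := by
  obtain ⟨z, hz, e⟩ := Function.Periodic.exists_mem_Ico₀ (f := p) hper two_pos y
  refine intervalIntegral.integral_pos two_pos (by fun_prop) (fun _ _ => sq_nonneg _)
    ⟨z, Ico_subset_Icc_self hz, ?_⟩
  rw [← e]; positivity

theorem main_decay {c α : ℝ} (hc : 0 < c) (hα : 0 < α) {P : ℝ → ℝ → ℝ} (h : Sol (Gf c α) P)
    (hmean : ∀ t, 0 ≤ t → ∫ y in (0:ℝ)..2, P t y = 0) (hne : ∃ y, P 0 y ≠ 0) :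
    ∃ m M, 0 < m ∧ 0 < M ∧ ∀ t, 0 ≤ t →
      m * (1 + t) ^ (-(2 / α)) ≤ Vf (P t) ∧ Vf (P t) ≤ M * (1 + t) ^ (-(2 / α)) := by
  obtain ⟨U, hU, hsup⟩ := sup_decay hc hα h hmean
  have cP : ∀ s, Continuous (P s) := fun s => h.cont' continuous_const continuous_id
  have hpos : ∀ t, 0 ≤ t → 0 < Vf (P t) := fun t ht => by
    by_contra hcon
    obtain ⟨y, hy⟩ := hne
    refine hy (back_uniq hc hα h ht (fun z => ?_) y)
    by_contra hz
    exact hcon (Vf_pos (cP t) (h.per t) hz)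
  have hup : ∀ t, 0 ≤ t → Vf (P t) ≤ 2 * U ^ 2 * (1 + t) ^ (-(2 / α)) := fun t ht => by
    have a1 := I_mono (f := fun y => P t y ^ 2) (g := fun _ => U ^ 2 * (1 + t) ^ (-(2 / α)))
      zero_le_two (by have := cP t; fun_prop) continuous_const (fun y _ => by
        have b1 := pow_le_pow_left₀ (abs_nonneg _) (hsup t ht y) 2
        rw [sq_abs, mul_pow, ← Real.rpow_two ((1 + t) ^ (-(1 / α))),
          ← Real.rpow_mul (by linarith), show -(1 / α) * 2 = -(2 / α) by ring] at b1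
        exact b1)
    simp only [intervalIntegral.integral_const, smul_eq_mul] at a1
    unfold Vf
    linarith
  have cV : Continuous fun t => Vf (P t) := by
    have : Continuous fun q : ℝ × ℝ => P q.1 q.2 ^ 2 := (h.cont' continuous_fst continuous_snd).pow 2
    exact intervalIntegral.continuous_parametric_intervalIntegral_of_continuous'
      (f := fun t y => P t y ^ 2) this 0 2
  obtain ⟨k, hk⟩ : ∃ k, k = c * (α + 1) * (2 * U) ^ α := ⟨_, rfl⟩
  have hk0 : 0 < k := by rw [hk]; positivity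
  obtain ⟨n1, hn1⟩ := exists_nat_ge (144 * k)
  have hr : -(1 / α) ≤ 0 := by have : 0 < 1 / α := by positivity
                               linarith
  have hb : ∀ n : ℕ, ∀ s, (n:ℝ) ≤ s → ∀ y, |P s y| ≤ U * (1 + n) ^ (-(1 / α)) := fun n s hs y =>
    (hsup s ((Nat.cast_nonneg n).trans hs) y).trans (mul_le_mul_of_nonneg_left
      (Real.rpow_le_rpow_of_nonpos (by positivity) (by linarith) hr) hU.le)
  have hl : ∀ n : ℕ, ∀ x y, |x| ≤ 2 * (U * (1 + n) ^ (-(1 / α))) →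
      |y| ≤ 2 * (U * (1 + n) ^ (-(1 / α))) →
      |Gf c α x - Gf c α y| ≤ k * (1 / (n + 1 : ℝ)) * |x - y| := fun n x y hx hy => by
    have a1 := Gf_lip hc hα hx hy
    rw [← mul_assoc 2 U, Real.mul_rpow (by positivity) (by positivity),
      ← Real.rpow_mul (by positivity), neg_mul, one_div_mul_cancel hα.ne', Real.rpow_neg_one,
      ← mul_assoc, ← hk, add_comm (1:ℝ) n, ← one_div] at a1
    exact a1
  have hκ : ∀ n : ℕ, n1 ≤ n → k * (1 / (n + 1 : ℝ)) ≤ 1 / 144 := fun n hn => by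
    have : (n1:ℝ) ≤ n := by exact_mod_cast hn
    rw [mul_one_div, div_le_iff₀ (by positivity)]; linarith
  have hper := fun (n : ℕ) (hn : n1 ≤ n) => period hα h (Nat.cast_nonneg n) (hb n) (hl n)
    (by positivity) ((hκ n hn).trans (by norm_num)) (hpos n (Nat.cast_nonneg n))
  obtain ⟨γ, hγ⟩ : ∃ γ, γ = 1 + α / 2 := ⟨_, rfl⟩
  have hγ0 : 0 < γ := by rw [hγ]; positivity
  obtain ⟨m, hm, n0, hn0⟩ := seq_lower (V := fun n => Vf (P n))
    (R := fun n => γ * Df c α (P n)) (r := α / 2)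
    (C := 1 + 8 * γ * k + 216 * k ^ 2 + 3024 * γ * k ^ 3) (by positivity)
    (by have : 0 ≤ 8 * γ * k + 216 * k ^ 2 + 3024 * γ * k ^ 3 := by positivity
        linarith) n1
    (fun n => hpos n (Nat.cast_nonneg n)) (fun n => mul_nonneg hγ0.le (Df_nonneg hc hα _))
    (fun n hn => by
      obtain ⟨-, a1, a2⟩ := hper n hn
      have hV := hpos n (Nat.cast_nonneg n)
      have a3 := Df_le hα (hl n) (by positivity) (cP n) (fun y z =>
        (abs_sub _ _).trans (by linarith [hb n n le_rfl y, hb n n le_rfl z]))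
      have a4 := J_ge (c := c) hα (cP n) (γ * Df c α (P n) / Vf (P n))
      rw [← hγ] at a1 a4 ⊢
      push_cast
      obtain ⟨u, hu⟩ : ∃ u, u = 1 / (n + 1 : ℝ) := ⟨_, rfl⟩
      rw [← hu] at a1 a2 a3 ⊢
      have hu0 : 0 < u := by rw [hu]; positivity
      obtain ⟨ρ, hρ⟩ : ∃ ρ, ρ = γ * Df c α (P n) / Vf (P n) := ⟨_, rfl⟩
      rw [← hρ] at a4 ⊢
      have e : γ * Df c α (P n) = ρ * Vf (P n) := by rw [hρ]; field_simp
      rw [e] at a1 a4
      refine ⟨?_, ?_, ?_⟩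
      · have b1 : ρ ≤ 8 * γ * k * u := by
          rw [hρ, div_le_iff₀ hV]
          have := mul_le_mul_of_nonneg_left a3 hγ0.le
          linarith
        have : 0 ≤ (1 + 216 * k ^ 2 + 3024 * γ * k ^ 3) * u := by positivity
        linarith
      · have : 0 ≤ (1 + 8 * γ * k + 3024 * γ * k ^ 3) * u ^ 2 * Vf (P n) := by positivity
        linarith
      · have b1 := mul_le_mul_of_nonneg_left a2 hγ0.le
        have b2 := mul_le_mul_of_nonneg_left a4 hγ0.le
        have : 0 ≤ (1 + 8 * γ * k + 216 * k ^ 2) * u ^ 3 * Vf (P n) := by positivity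
        linarith)
  rw [show 1 / (α / 2) = 2 / α by field_simp] at hn0
  obtain ⟨N, hN⟩ : ∃ N, N = max n0 n1 := ⟨_, rfl⟩
  obtain ⟨t0, ht0, hmin⟩ := (isCompact_Icc (a := (0:ℝ)) (b := N)).exists_isMinOn
    ⟨0, le_rfl, Nat.cast_nonneg N⟩ cV.continuousOn
  have hr2 : -(2 / α) ≤ 0 := by have : 0 < 2 / α := by positivity
                                linarith
  refine ⟨min (m / 2) (Vf (P t0)), 2 * U ^ 2, lt_min (by positivity) (hpos t0 ht0.1),
    by positivity, fun t ht => ⟨?_, hup t ht⟩⟩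
  have hw : 0 < (1 + t) ^ (-(2 / α)) := by positivity
  rcases le_total t N with htN | htN
  · have a1 : Vf (P t0) ≤ Vf (P t) := hmin ⟨ht, htN⟩
    have a2 : (1 + t) ^ (-(2 / α)) ≤ 1 := Real.rpow_le_one_of_one_le_of_nonpos (by linarith) hr2
    have a3 := hpos t0 ht0.1
    calc _ ≤ Vf (P t0) * 1 := mul_le_mul (min_le_right _ _) a2 hw.le a3.le
      _ ≤ _ := by linarith
  · have a0 : N ≤ ⌊t⌋₊ := Nat.le_floor htN
    have a1 := hn0 ⌊t⌋₊ (by omega)
    have a2 := (hper ⌊t⌋₊ (by omega)).1 t ⟨Nat.floor_le ht, (Nat.lt_floor_add_one t).le⟩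
    have a3 := hκ ⌊t⌋₊ (by omega)
    have a4 := hpos ⌊t⌋₊ (Nat.cast_nonneg _)
    have a5 : Vf (P ⌊t⌋₊) * (1 / 2) ≤ Vf (P ⌊t⌋₊) * (1 - 72 * (k * (1 / (⌊t⌋₊ + 1 : ℝ)))) :=
      mul_le_mul_of_nonneg_left (by linarith) a4.le
    have a6 : (1 + t) ^ (-(2 / α)) ≤ ((⌊t⌋₊ : ℝ) + 1) ^ (-(2 / α)) :=
      Real.rpow_le_rpow_of_nonpos (by positivity) (by linarith [Nat.floor_le ht]) hr2
    calc _ ≤ m / 2 * ((⌊t⌋₊ : ℝ) + 1) ^ (-(2 / α)) :=
          mul_le_mul (min_le_left _ _) a6 hw.le (by positivity)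
      _ ≤ _ := by linarith

end Pool.Agent.H.MP_be01ff_an
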