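import Pool.Agent.H.MP_be01ff_an.E

namespace Pool.Agent.H.MP_be01ff_an

open Set MeasureTheory intervalIntegral Filter Topology Real

noncomputable def tri (x : ℝ) : ℝ := arccos (cos (π * x)) / π

lemma tri_cont : Continuous tri := by
  unfold tri
  exact (continuous_arccos.comp (by fun_prop)).div_const _

lemma tri_neg (x : ℝ) : tri (-x) = tri x := by simp [tri]

lemma tri_per (x : ℝ) : tri (x + 2) = tri x := by
  unfold tri
  rw [show π * (x + 2) = π * x + 2 * π by ring, cos_add_two_pi]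

lemma tri_eq {x : ℝ} (hx : x ∈ Icc (0:ℝ) 1) : tri x = x := by
  unfold tri
  rw [arccos_cos (mul_nonneg pi_pos.le hx.1) (by nlinarith [pi_pos, hx.2])]
  field_simp

lemma tri_bd {x : ℝ} (h : sin (π * x) = 0) : tri x = 0 ∨ tri x = 1 := by
  unfold tri
  rcases sin_eq_zero_iff_cos_eq.1 h with h | h
  · left; rw [h, arccos_one, zero_div]
  · right; rw [h, arccos_neg_one, div_self pi_ne_zero]

lemma cos_ne {x : ℝ} (h : sin x ≠ 0) : -1 < cos x ∧ cos x < 1 :=
  ⟨lt_of_le_of_ne (neg_one_le_cos x) (fun e => h (sin_eq_zero_iff_cos_eq.2 (Or.inr e.symm))),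
    lt_of_le_of_ne (cos_le_one x) (fun e => h (sin_eq_zero_iff_cos_eq.2 (Or.inl e)))⟩

lemma tri_mem {x : ℝ} (h : sin (π * x) ≠ 0) : tri x ∈ Ioo (0:ℝ) 1 := by
  unfold tri
  exact ⟨div_pos (arccos_pos.2 (cos_ne h).2) pi_pos,
    (div_lt_one pi_pos).2 (arccos_lt_pi.2 (cos_ne h).1)⟩

lemma tri_deriv {x : ℝ} (h : sin (π * x) ≠ 0) :
    HasDerivAt tri (sin (π * x) / |sin (π * x)|) x := by
  have h1 : HasDerivAt (fun x => cos (π * x)) (-sin (π * x) * (π * 1)) x :=
    ((hasDerivAt_id x).const_mul π).cos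
  have h2 := ((hasDerivAt_arccos (cos_ne h).1.ne' (cos_ne h).2.ne).comp x h1).div_const π
  refine h2.congr_deriv ?_
  rw [← sin_sq, sqrt_sq_eq_abs]
  have := pi_ne_zero
  have : |sin (π * x)| ≠ 0 := abs_ne_zero.2 h
  field_simp

lemma fold_int {p : ℝ → ℝ} (hp : Continuous p) (hper : ∀ x, p (x + 2) = p x) (t : ℝ) :
    ∫ y in (0:ℝ)..2, p (y - t) = ∫ x in (0:ℝ)..1, (p x + p (-x)) := by
  rw [intervalIntegral.integral_comp_sub_right, intervalIntegral.integral_add
    (hp.intervalIntegrable _ _) (Continuous.intervalIntegrable (by fun_prop) _ _),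
    intervalIntegral.integral_comp_neg, neg_zero, add_comm,
    intervalIntegral.integral_add_adjacent_intervals (hp.intervalIntegrable _ _)
      (hp.intervalIntegrable _ _)]
  have h := Function.Periodic.intervalIntegral_add_eq (f := p) (T := 2) hper (0 - t) (-1)
  rw [show (0:ℝ) - t + 2 = 2 - t by ring, show (-1:ℝ) + 2 = 1 by ring] at h
  exact h

theorem unit_decay {c α : ℝ} (hc : 0 < c) (hα : 0 < α) {f g : ℝ × ℝ → ℝ} (cf : Continuous f)
    (cg : Continuous g)
    (df : ∀ t, 0 < t → ∀ x ∈ Ioo (0:ℝ) 1, ∃ L : ℝ × ℝ →L[ℝ] ℝ, HasFDerivAt f L (t, x) ∧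
      L (1, -1) = - Gf c α (f (t, x) - g (t, x)))
    (dg : ∀ t, 0 < t → ∀ x ∈ Ioo (0:ℝ) 1, ∃ L : ℝ × ℝ →L[ℝ] ℝ, HasFDerivAt g L (t, x) ∧
      L (1, 1) = - Gf c α (g (t, x) - f (t, x)))
    (b0 : ∀ t, 0 ≤ t → f (t, 0) = g (t, 0)) (b1 : ∀ t, 0 ≤ t → f (t, 1) = g (t, 1))
    (hm : ∀ t, 0 ≤ t → ∫ x in (0:ℝ)..1, (f (t, x) + g (t, x)) = 0)
    (hne : ∃ x ∈ Icc (0:ℝ) 1, f (0, x) ≠ 0 ∨ g (0, x) ≠ 0) :
    ∃ m M, 0 < m ∧ 0 < M ∧ ∀ t, 0 ≤ t →
      m * (1 + t) ^ (-(2 / α)) ≤ ∫ x in (0:ℝ)..1, (f (t, x) ^ 2 + g (t, x) ^ 2) ∧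
      ∫ x in (0:ℝ)..1, (f (t, x) ^ 2 + g (t, x) ^ 2) ≤ M * (1 + t) ^ (-(2 / α)) := by
  have ct := tri_cont
  have hG := Gf_cont (c := c) hα
  obtain ⟨p, hp⟩ : ∃ p : ℝ → ℝ → ℝ, p = fun t x =>
    if 0 ≤ sin (π * x) then f (max t 0, tri x) else g (max t 0, tri x) := ⟨_, rfl⟩
  have bd : ∀ t x, sin (π * x) = 0 → f (max t 0, tri x) = g (max t 0, tri x) := fun t x h => by
    rcases tri_bd h with e | e <;> rw [e]
    · exact b0 _ (le_max_right _ _)
    · exact b1 _ (le_max_right _ _)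
  have cp : Continuous fun q : ℝ × ℝ => p q.1 q.2 := by
    rw [hp]
    exact Continuous.if_le (by fun_prop) (by fun_prop) continuous_const (by fun_prop)
      (fun q h => bd q.1 q.2 h.symm)
  have p1 : ∀ t, 0 ≤ t → ∀ x, 0 ≤ sin (π * x) → p t x = f (t, tri x) := fun t ht x h => by
    rw [hp]; simp only [if_pos h, max_eq_left ht]
  have p2 : ∀ t, 0 ≤ t → ∀ x, sin (π * x) ≤ 0 → p t x = g (t, tri x) := fun t ht x h => by
    rw [hp]; simp only
    split_ifs with h2
    · rw [bd t x (le_antisymm h h2), max_eq_left ht]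
    · rw [max_eq_left ht]
  have pper : ∀ t x, p t (x + 2) = p t x := fun t x => by
    rw [hp]; simp only
    rw [tri_per, show π * (x + 2) = π * x + 2 * π by ring, sin_add_two_pi]
  have q1 : ∀ t, 0 ≤ t → ∀ x ∈ Icc (0:ℝ) 1, p t x = f (t, x) := fun t ht x hx => by
    rw [p1 t ht x (sin_nonneg_of_nonneg_of_le_pi (mul_nonneg pi_pos.le hx.1)
      (by nlinarith [pi_pos, hx.2])), tri_eq hx]
  have q2 : ∀ t, 0 ≤ t → ∀ x ∈ Icc (0:ℝ) 1, p t (-x) = g (t, x) := fun t ht x hx => by
    rw [p2 t ht (-x) (by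
      rw [mul_neg, sin_neg, neg_nonpos]
      exact sin_nonneg_of_nonneg_of_le_pi (mul_nonneg pi_pos.le hx.1)
        (by nlinarith [pi_pos, hx.2])), tri_neg, tri_eq hx]
  have cp' : ∀ {a b : ℝ → ℝ}, Continuous a → Continuous b → Continuous fun s => p (a s) (b s) :=
    fun ha hb => cp.comp (ha.prodMk hb)
  have hS : Sol (Gf c α) (fun t y => p t (y - t)) := by
    refine ⟨hG, cp.comp (continuous_fst.prodMk (continuous_snd.sub continuous_fst)),
      fun t y => ?_, fun t ht y => ?_⟩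
    · rw [show y + 2 - t = y - t + 2 by ring, pper]
    · have cnt : {s : ℝ | sin (π * (y - s)) = 0}.Countable := by
        refine (countable_range (fun n : ℤ => y - n)).mono (fun s hs => ?_)
        obtain ⟨n, hn⟩ := sin_eq_zero_iff.1 hs
        refine ⟨n, ?_⟩
        have : (n:ℝ) = y - s := by
          have h2 : π * n = π * (y - s) := by rw [← hn]; ring
          exact mul_left_cancel₀ pi_ne_zero h2
        simp only [this]; ring
      have c1 : Continuous fun s => p s (y - s) := cp' continuous_id (by fun_prop)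
      have c2 : Continuous fun s => p s (2 * s - y - s) := cp' continuous_id (by fun_prop)
      have key := MeasureTheory.integral_eq_of_hasDerivAt_off_countable_of_le
        (fun s => p s (y - s)) (fun s => - Gf c α (p s (y - s) - p s (2 * s - y - s))) ht cnt
        c1.continuousOn (fun s hs => ?_) (Continuous.intervalIntegrable (by fun_prop) _ _)
      · rw [intervalIntegral.integral_neg] at key
        linarith
      · have hs0 : 0 < s := hs.1.1
        have hne : sin (π * (y - s)) ≠ 0 := hs.2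
        have e : 2 * s - y - s = -(y - s) := by ring
        have d1 : HasDerivAt (fun r => tri (y - r))
            (sin (π * (y - s)) / |sin (π * (y - s))| * (-1)) s :=
          (tri_deriv hne).comp s ((hasDerivAt_id s).const_sub y)
        have cs : Continuous fun r => sin (π * (y - r)) := by fun_prop
        rcases lt_or_gt_of_ne hne with hl | hl
        · obtain ⟨L, hL, hL'⟩ := dg s hs0 _ (tri_mem hne)
          rw [abs_of_neg hl, div_neg, div_self hne, neg_mul_neg, one_mul] at d1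
          have d2 := hL.comp_hasDerivAt (f := fun r => (r, tri (y - r))) s
            ((hasDerivAt_id s).prodMk d1)
          rw [hL'] at d2
          rw [e, p2 s hs0.le _ hl.le, p1 s hs0.le _ (by rw [mul_neg, sin_neg]; linarith), tri_neg]
          refine d2.congr_of_eventuallyEq ?_
          filter_upwards [lt_mem_nhds hs0, cs.continuousAt.eventually (gt_mem_nhds hl)] with r h1 h2
          exact p2 r h1.le _ h2.le
        · obtain ⟨L, hL, hL'⟩ := df s hs0 _ (tri_mem hne)
          rw [abs_of_pos hl, div_self hne, one_mul] at d1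
          have d2 := hL.comp_hasDerivAt (f := fun r => (r, tri (y - r))) s
            ((hasDerivAt_id s).prodMk d1)
          rw [hL'] at d2
          rw [e, p1 s hs0.le _ hl.le, p2 s hs0.le _ (by rw [mul_neg, sin_neg]; linarith), tri_neg]
          refine d2.congr_of_eventuallyEq ?_
          filter_upwards [lt_mem_nhds hs0, cs.continuousAt.eventually (lt_mem_nhds hl)] with r h1 h2
          exact p1 r h1.le _ h2.le
  have hmean : ∀ t, 0 ≤ t → ∫ y in (0:ℝ)..2, p t (y - t) = 0 := fun t ht => by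
    rw [fold_int (p := p t) (cp' continuous_const continuous_id) (pper t)]
    refine Eq.trans (intervalIntegral.integral_congr (fun x hx => ?_)) (hm t ht)
    rw [uIcc_of_le zero_le_one] at hx
    simp only [q1 t ht x hx, q2 t ht x hx]
  have hV : ∀ t, 0 ≤ t → Vf (fun y => p t (y - t)) =
      ∫ x in (0:ℝ)..1, (f (t, x) ^ 2 + g (t, x) ^ 2) := fun t ht => by
    unfold Vf
    rw [fold_int (p := fun x => p t x ^ 2) ((cp' continuous_const continuous_id).pow 2)
      (fun x => by rw [pper])]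
    refine intervalIntegral.integral_congr (fun x hx => ?_)
    rw [uIcc_of_le zero_le_one] at hx
    simp only [q1 t ht x hx, q2 t ht x hx]
  obtain ⟨m, M, h1, h2, h3⟩ := main_decay hc hα hS hmean (by
    obtain ⟨x, hx, h | h⟩ := hne
    · exact ⟨x, by simp only [sub_zero]; rwa [q1 0 le_rfl x hx]⟩
    · exact ⟨-x, by simp only [sub_zero]; rwa [q2 0 le_rfl x hx]⟩)
  exact ⟨m, M, h1, h2, fun t ht => by rw [← hV t ht]; exact h3 t ht⟩

end Pool.Agent.H.MP_be01ff_an
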