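import Pool.Agent.H.MP_be01ff_an.F

namespace Pool.Agent.H.MP_be01ff_an

open Set MeasureTheory intervalIntegral Filter Topology Real

lemma dt_of {F : Type} [NormedAddCommGroup F] [NormedSpace ℝ F] {u : ℝ × ℝ → F}
    {L : ℝ × ℝ →L[ℝ] F} {t x : ℝ} (h : HasFDerivAt u L (t, x)) :
    HasDerivAt (fun r => u (r, x)) (L (1, 0)) t :=
  h.comp_hasDerivAt (f := fun r => (r, x)) t ((hasDerivAt_id t).prodMk (hasDerivAt_const t x))

lemma dx_of {F : Type} [NormedAddCommGroup F] [NormedSpace ℝ F] {u : ℝ × ℝ → F}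
    {L : ℝ × ℝ →L[ℝ] F} {t x : ℝ} (h : HasFDerivAt u L (t, x)) :
    HasDerivAt (fun z => u (t, z)) (L (0, 1)) x :=
  h.comp_hasDerivAt (f := fun z => (t, z)) x ((hasDerivAt_const x t).prodMk (hasDerivAt_id x))

lemma Gf_two {a α l v : ℝ} : Gf (a * l / 2 ^ (α + 1)) α (2 * v) = l * (a * |v| ^ α * v) := by
  unfold Gf
  rw [abs_mul, abs_two, Real.mul_rpow (by norm_num) (abs_nonneg v),
    Real.rpow_add_one two_ne_zero]
  have : (2:ℝ) ^ α ≠ 0 := by positivity
  field_simp

theorem classical {a α A B : ℝ} (ha : 0 < a) (hα : 0 < α) (hAB : A < B) {u : ℝ × ℝ → ℝ}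
    (h1 : ContDiff ℝ 1 u) (h2 : ∀ t, 0 < t → ∀ x ∈ Ioo A B, ContDiffAt ℝ 2 u (t, x))
    (hbc : ∀ t, 0 ≤ t → u (t, A) = 0 ∧ u (t, B) = 0)
    (hpde : ∀ t, 0 < t → ∀ x ∈ Ioo A B,
      deriv (fun s => deriv (fun r => u (r, x)) s) t - deriv (fun y => deriv (fun z => u (t, z)) y) x
        + a * |deriv (fun r => u (r, x)) t| ^ α * deriv (fun r => u (r, x)) t = 0)
    (hne : ∃ x ∈ Icc A B, u (0, x) ≠ 0 ∨ deriv (fun r => u (r, x)) 0 ≠ 0) :
    ∃ c C : ℝ, 0 < c ∧ c ≤ C ∧ ∀ t, 0 ≤ t →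
      c * (1 + t) ^ (-2 / α) ≤
        ∫ x in A..B, (deriv (fun r => u (r, x)) t ^ 2 + deriv (fun z => u (t, z)) x ^ 2) ∧
      ∫ x in A..B, (deriv (fun r => u (r, x)) t ^ 2 + deriv (fun z => u (t, z)) x ^ 2) ≤
        C * (1 + t) ^ (-2 / α) := by
  obtain ⟨l, hl⟩ : ∃ l, l = B - A := ⟨_, rfl⟩
  have hl0 : 0 < l := by linarith
  obtain ⟨D, hD⟩ : ∃ D, D = fderiv ℝ u := ⟨_, rfl⟩
  have cD : Continuous D := by rw [hD]; exact h1.continuous_fderiv one_ne_zero
  have dD : ∀ z, HasFDerivAt u (D z) z := fun z => by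
    rw [hD]; exact (h1.differentiable one_ne_zero z).hasFDerivAt
  have e1 : ∀ t x, deriv (fun r => u (r, x)) t = D (t, x) (1, 0) := fun t x =>
    (dt_of (dD _)).deriv
  have e2 : ∀ t x, deriv (fun z => u (t, z)) x = D (t, x) (0, 1) := fun t x =>
    (dx_of (dD _)).deriv
  simp only [e1, e2] at hpde hne ⊢
  have s1 : ∀ z, D z (1, 1) = D z (0, 1) + D z (1, 0) := fun z => by
    rw [← map_add]; congr 1; simp
  have s2 : ∀ z, D z (-1, 1) = D z (0, 1) - D z (1, 0) := fun z => by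
    rw [← map_sub]; congr 1; simp
  have hb : ∀ x0, (∀ t, 0 ≤ t → u (t, x0) = 0) → ∀ t, 0 ≤ t → D (t, x0) (1, 0) = 0 :=
    fun x0 h t ht => (uniqueDiffOn_Ici 0 t ht).eq_deriv _ (dt_of (dD (t, x0))).hasDerivWithinAt
      ((hasDerivWithinAt_const t (Ici 0) (0:ℝ)).congr h (h t ht))
  have dφ : ∀ z : ℝ × ℝ, HasFDerivAt (fun z : ℝ × ℝ => ((0, A) : ℝ × ℝ) + l • z)
      (l • ContinuousLinearMap.id ℝ (ℝ × ℝ)) z := fun z =>
    ((hasFDerivAt_id z).const_smul l).const_add _
  have eφ : ∀ t x : ℝ, ((0, A) : ℝ × ℝ) + l • (t, x) = (l * t, A + l * x) := fun t x => by simp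
  have mem : ∀ x ∈ Ioo (0:ℝ) 1, A + l * x ∈ Ioo A B := fun x hx =>
    ⟨by nlinarith [hx.1], by nlinarith [hx.2]⟩
  have key : ∀ t, 0 < t → ∀ x ∈ Ioo (0:ℝ) 1, ∀ σ : ℝ, σ * σ = 1 → ∃ L : ℝ × ℝ →L[ℝ] ℝ,
      HasFDerivAt (fun z : ℝ × ℝ => D ((0, A) + l • z) (σ, 1)) L (t, x) ∧
      L (1, -σ) = - σ * (l * (a * |D (l * t, A + l * x) (1, 0)| ^ α *
        D (l * t, A + l * x) (1, 0))) := by
    intro t ht x hx σ hσ
    have ht' : 0 < l * t := mul_pos hl0 ht
    have c2 := h2 _ ht' _ (mem x hx)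
    have d2 : HasFDerivAt D (fderiv ℝ D (l * t, A + l * x)) (l * t, A + l * x) := by
      rw [hD]
      exact ((c2.fderiv_right (m := 1) (by norm_num)).differentiableAt one_ne_zero).hasFDerivAt
    obtain ⟨D2, hD2⟩ : ∃ D2, D2 = fderiv ℝ D (l * t, A + l * x) := ⟨_, rfl⟩
    rw [← hD2] at d2
    have sy := second_derivative_symmetric dD d2 (1, 0) (0, 1)
    have p1 : deriv (fun s => D (s, A + l * x) (1, 0)) (l * t) = D2 (1, 0) (1, 0) := by
      simpa using ((dt_of d2).clm_apply (hasDerivAt_const _ ((1, 0) : ℝ × ℝ))).deriv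
    have p2 : deriv (fun y => D (l * t, y) (0, 1)) (A + l * x) = D2 (0, 1) (0, 1) := by
      simpa using ((dx_of d2).clm_apply (hasDerivAt_const _ ((0, 1) : ℝ × ℝ))).deriv
    have p3 := hpde _ ht' _ (mem x hx)
    rw [p1, p2] at p3
    rw [← eφ] at d2
    refine ⟨_, (d2.comp (t, x) (dφ (t, x))).clm_apply (hasFDerivAt_const ((σ, 1) : ℝ × ℝ) _), ?_⟩
    have q1 : ((1, -σ) : ℝ × ℝ) = (1, 0) - σ • (0, 1) := by simp
    have q2 : ((σ, 1) : ℝ × ℝ) = σ • (1, 0) + (0, 1) := by simp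
    simp only [ContinuousLinearMap.comp_zero, zero_add, ContinuousLinearMap.flip_apply,
      ContinuousLinearMap.comp_apply, ContinuousLinearMap.smul_apply, ContinuousLinearMap.id_apply,
      map_smul, smul_eq_mul]
    rw [q1, q2]
    simp only [map_sub, map_add, map_smul, ContinuousLinearMap.sub_apply,
      ContinuousLinearMap.smul_apply, smul_eq_mul, ← sy]
    linear_combination (l * σ) * p3 - l * D2 (1, 0) (0, 1) * hσ
  have cφ : Continuous fun z : ℝ × ℝ => D ((0, A) + l • z) := cD.comp (by fun_prop)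
  obtain ⟨m, M, hm, hM, hmain⟩ := unit_decay (c := a * l / 2 ^ (α + 1)) (by positivity) hα
    (f := fun z => D ((0, A) + l • z) (1, 1)) (g := fun z => D ((0, A) + l • z) (-1, 1))
    (cφ.clm_apply continuous_const) (cφ.clm_apply continuous_const)
    (fun t ht x hx => by
      obtain ⟨L, hL, hL'⟩ := key t ht x hx 1 (by norm_num)
      refine ⟨L, hL, ?_⟩
      rw [hL', eφ, s1, s2, add_sub_sub_cancel, ← two_mul, Gf_two]; ring)
    (fun t ht x hx => by
      obtain ⟨L, hL, hL'⟩ := key t ht x hx (-1) (by norm_num)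
      refine ⟨L, hL, ?_⟩
      rw [neg_neg] at hL'
      rw [hL', ← neg_sub, Gf_neg, eφ, s1, s2, add_sub_sub_cancel, ← two_mul, Gf_two]; ring)
    (fun t ht => by
      simp only [eφ, s1, s2, mul_zero, add_zero]
      rw [hb A (fun t ht => (hbc t ht).1) _ (mul_nonneg hl0.le ht)]; ring)
    (fun t ht => by
      simp only [eφ, s1, s2, mul_one]
      rw [show A + l = B by linarith,
        hb B (fun t ht => (hbc t ht).2) _ (mul_nonneg hl0.le ht)]; ring)
    (fun t ht => by
      have i1 := intervalIntegral.integral_eq_sub_of_hasDerivAt (a := 0) (b := 1)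
        (f := fun x => 2 / l * u (l * t, A + l * x))
        (f' := fun x => D ((0, A) + l • (t, x)) (1, 1) + D ((0, A) + l • (t, x)) (-1, 1))
        (fun x _ => by
          have := (((dx_of (dD (l * t, A + l * x))).comp x
            (((hasDerivAt_id x).const_mul l).const_add A))).const_mul (2 / l)
          refine this.congr_deriv ?_
          rw [eφ, s1, s2]; field_simp; ring)
        (Continuous.intervalIntegrable (by fun_prop) _ _)
      rw [i1]
      simp only [mul_one, mul_zero, add_zero]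
      rw [show A + l = B by linarith, (hbc _ (mul_nonneg hl0.le ht)).1,
        (hbc _ (mul_nonneg hl0.le ht)).2, sub_self])
    (by
      by_contra hcon
      push Not at hcon
      have z : ∀ x ∈ Icc A B, D (0, x) (1, 0) = 0 ∧ D (0, x) (0, 1) = 0 := fun x hx => by
        have := hcon ((x - A) / l) ⟨div_nonneg (by linarith [hx.1]) hl0.le,
          (div_le_one hl0).2 (by linarith [hx.2])⟩
        rw [eφ, s1, s2, mul_zero, mul_div_cancel₀ _ hl0.ne', add_sub_cancel] at this
        constructor <;> linarith [this.1, this.2]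
      obtain ⟨x, hx, h | h⟩ := hne
      · have := constant_of_has_deriv_right_zero (f := fun z => u (0, z)) (a := A) (b := B)
          (h1.continuous.comp (by fun_prop)).continuousOn (fun y hy => by
            have := (dx_of (dD (0, y))).hasDerivWithinAt (s := Ici y)
            rwa [(z y (Ico_subset_Icc_self hy)).2] at this) x hx
        exact h (this.trans (hbc 0 le_rfl).1)
      · exact h (z x hx).1)
  have hE : ∀ t, ∫ x in A..B, (D (t, x) (1, 0) ^ 2 + D (t, x) (0, 1) ^ 2) =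
      l / 2 * ∫ x in (0:ℝ)..1, (D ((0, A) + l • (t / l, x)) (1, 1) ^ 2 +
        D ((0, A) + l • (t / l, x)) (-1, 1) ^ 2) := fun t => by
    have i1 := intervalIntegral.smul_integral_comp_add_mul (a := 0) (b := 1)
      (f := fun x => D (t, x) (1, 0) ^ 2 + D (t, x) (0, 1) ^ 2) l A
    rw [mul_zero, add_zero, mul_one, show A + l = B by linarith] at i1
    rw [← i1, smul_eq_mul, ← intervalIntegral.integral_const_mul,
      ← intervalIntegral.integral_const_mul]
    congr 1; ext x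
    rw [eφ, s1, s2, mul_div_cancel₀ _ hl0.ne']; ring
  have hr : -(2 / α) ≤ 0 := by have : 0 < 2 / α := by positivity
                               linarith
  have fin : ∀ t, 0 ≤ t → l / 2 * m * (1 + 1 / l) ^ (-(2 / α)) * (1 + t) ^ (-2 / α) ≤
        ∫ x in A..B, (D (t, x) (1, 0) ^ 2 + D (t, x) (0, 1) ^ 2) ∧
      ∫ x in A..B, (D (t, x) (1, 0) ^ 2 + D (t, x) (0, 1) ^ 2) ≤
        l / 2 * M / (1 + l) ^ (-(2 / α)) * (1 + t) ^ (-2 / α) := fun t ht => by
    obtain ⟨a1, a2⟩ := hmain (t / l) (by positivity)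
    rw [hE, neg_div]
    have b1 : 1 + t / l ≤ (1 + 1 / l) * (1 + t) := by
      have : (1 + 1 / l) * (1 + t) = 1 + t / l + (t + 1 / l) := by ring
      have : 0 ≤ t + 1 / l := by positivity
      linarith
    have b2 : (1 + t) / (1 + l) ≤ 1 + t / l := by
      rw [div_le_iff₀ (by positivity)]
      have : (1 + t / l) * (1 + l) = 1 + t + (l + t / l) := by field_simp; ring
      have : 0 ≤ l + t / l := by positivity
      linarith
    have b3 := Real.rpow_le_rpow_of_nonpos (by positivity) b1 hr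
    have b4 := Real.rpow_le_rpow_of_nonpos (by positivity) b2 hr
    rw [Real.mul_rpow (by positivity) (by positivity)] at b3
    rw [Real.div_rpow (by positivity) (by positivity)] at b4
    constructor
    · have := mul_le_mul_of_nonneg_left ((mul_le_mul_of_nonneg_left b3 hm.le).trans a1)
        (by positivity : 0 ≤ l / 2)
      linarith
    · have := mul_le_mul_of_nonneg_left (a2.trans (mul_le_mul_of_nonneg_left b4 hM.le))
        (by positivity : 0 ≤ l / 2)
      refine this.trans (le_of_eq ?_)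
      ring
  refine ⟨_, _, by positivity, ?_, fin⟩
  have := (fin 0 le_rfl).1.trans (fin 0 le_rfl).2
  simpa using this

end Pool.Agent.H.MP_be01ff_an
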