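import Pool.Agent.H.MP_be01ff_an.A

namespace Pool.Agent.H.MP_be01ff_an

open Set MeasureTheory intervalIntegral Filter Topology

lemma fixp {H : ℝ × ℝ → ℝ → ℝ → ℝ}
    (cH : Continuous fun q : (ℝ × ℝ) × ℝ × ℝ => H q.1 q.2.1 q.2.2) {L : ℝ} (hL : 0 < L)
    (lip : ∀ z a b a' b', |H z a b - H z a' b'| ≤ L * (|a - a'| + |b - b'|))
    (h0 : ∀ z, H z 0 0 = 0) {P0 : ℝ → ℝ} (cP : Continuous P0) {M : ℝ} (bP : ∀ y, |P0 y| ≤ M) :
    ∃ P : ℝ → ℝ → ℝ, Continuous P.uncurry ∧
      (∃ B, 0 ≤ B ∧ ∀ t y, |P t y| ≤ B * Real.exp (4 * L * |t|)) ∧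
      ∀ t y, P t y = P0 y - ∫ s in (0:ℝ)..t, H (s, y) (P s y) (P s (2 * s - y)) := by
  obtain ⟨φ, hφ⟩ : ∃ φ : BoundedContinuousFunction (ℝ × ℝ) ℝ → ℝ → ℝ → ℝ, φ = fun f y s =>
    H (s, y) (Real.exp (4 * L * |s|) * f (s, y)) (Real.exp (4 * L * |s|) * f (s, 2 * s - y)) :=
    ⟨_, rfl⟩
  have cφ : ∀ f, Continuous (φ f).uncurry := fun f => by
    rw [hφ]
    have cf := f.continuous
    exact cH.comp (f := fun q : ℝ × ℝ => ((q.2, q.1), Real.exp (4 * L * |q.2|) * f (q.2, q.1),
      Real.exp (4 * L * |q.2|) * f (q.2, 2 * q.2 - q.1))) (by fun_prop)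
  have cφ' : ∀ f y, Continuous (φ f y) := fun f y =>
    (cφ f).comp (f := fun s => (y, s)) (by fun_prop)
  have dφ : ∀ f g y s, |φ f y s - φ g y s| ≤ 0 + 2 * L * dist f g * Real.exp (4 * L * |s|) :=
    fun f g y s => by
    rw [hφ]
    refine (lip _ _ _ _ _).trans ?_
    have a1 := BoundedContinuousFunction.dist_coe_le_dist (f := f) (g := g) (s, y)
    have a2 := BoundedContinuousFunction.dist_coe_le_dist (f := f) (g := g) (s, 2 * s - y)
    rw [Real.dist_eq] at a1 a2
    have e := Real.exp_pos (4 * L * |s|)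
    rw [← mul_sub, ← mul_sub, abs_mul, abs_mul, abs_of_pos e]
    have a3 := mul_le_mul_of_nonneg_left (add_le_add a1 a2) (mul_pos hL e).le
    linarith
  have iφ : ∀ f g t y, Real.exp (-(4 * L * |t|)) *
      |(∫ s in (0:ℝ)..t, φ f y s) - ∫ s in (0:ℝ)..t, φ g y s| ≤ 1 / 2 * dist f g :=
    fun f g t y => by
    rw [← intervalIntegral.integral_sub ((cφ' f y).intervalIntegrable _ _)
      ((cφ' g y).intervalIntegrable _ _)]
    have a1 := int_exp (φ := fun s => φ f y s - φ g y s) (t := t) (l := 4 * L) (by positivity)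
      (by positivity) (fun s _ => dφ f g y s)
    have a2 := mul_le_mul_of_nonneg_left a1 (Real.exp_pos (-(4 * L * |t|))).le
    refine a2.trans (le_of_eq ?_)
    rw [Real.exp_neg]
    have e := Real.exp_pos (4 * L * |t|)
    field_simp; ring
  have φ0 : ∀ y s, φ 0 y s = 0 := fun y s => by rw [hφ]; simp [h0]
  have cT : ∀ f, Continuous fun z : ℝ × ℝ =>
      Real.exp (-(4 * L * |z.1|)) * (P0 z.2 - ∫ s in (0:ℝ)..z.1, φ f z.2 s) := fun f => by
    have := (intervalIntegral.continuous_parametric_primitive_of_continuous (μ := volume)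
      (a₀ := 0) (cφ f)).comp continuous_swap
    exact (by fun_prop : Continuous fun z : ℝ × ℝ => Real.exp (-(4 * L * |z.1|))).mul
      ((cP.comp continuous_snd).sub this)
  have bT : ∀ f, ∀ z : ℝ × ℝ, ‖Real.exp (-(4 * L * |z.1|)) *
      (P0 z.2 - ∫ s in (0:ℝ)..z.1, φ f z.2 s)‖ ≤ M + 1 / 2 * dist f 0 := fun f z => by
    have a1 := iφ f 0 z.1 z.2
    simp only [φ0, intervalIntegral.integral_zero, sub_zero] at a1
    have e := Real.exp_pos (-(4 * L * |z.1|))
    have e1 : Real.exp (-(4 * L * |z.1|)) ≤ 1 :=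
      Real.exp_le_one_iff.2 (neg_nonpos.2 (by positivity))
    rw [Real.norm_eq_abs, abs_mul, abs_of_pos e]
    have a2 := mul_le_mul_of_nonneg_left (abs_sub (P0 z.2) (∫ s in (0:ℝ)..z.1, φ f z.2 s)) e.le
    have a3 := mul_le_mul e1 (bP z.2) (abs_nonneg _) zero_le_one
    linarith
  obtain ⟨T, hT⟩ : ∃ T : BoundedContinuousFunction (ℝ × ℝ) ℝ →
      BoundedContinuousFunction (ℝ × ℝ) ℝ, ∀ f z, T f z =
      Real.exp (-(4 * L * |z.1|)) * (P0 z.2 - ∫ s in (0:ℝ)..z.1, φ f z.2 s) :=
    ⟨fun f => BoundedContinuousFunction.ofNormedAddCommGroup _ (cT f) _ (bT f), fun _ _ => rfl⟩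
  have hC : ContractingWith (1 / 2) T := by
    refine ⟨by norm_num, LipschitzWith.of_dist_le_mul fun f g => ?_⟩
    rw [BoundedContinuousFunction.dist_le (by positivity)]
    intro z
    rw [hT, hT, Real.dist_eq, ← mul_sub, abs_mul, abs_of_pos (Real.exp_pos _),
      sub_sub_sub_cancel_left, abs_sub_comm]
    have := iφ f g z.1 z.2
    simpa using this
  obtain ⟨f, hf⟩ : ∃ f, T f = f := ⟨_, hC.fixedPoint_isFixedPt⟩
  have cf := f.continuous
  refine ⟨fun t y => Real.exp (4 * L * |t|) * f (t, y), ?_, ⟨‖f‖, norm_nonneg _, fun t y => ?_⟩,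
    fun t y => ?_⟩
  · exact (by fun_prop : Continuous fun z : ℝ × ℝ => Real.exp (4 * L * |z.1|) * f (z.1, z.2))
  · rw [abs_mul, abs_of_pos (Real.exp_pos _), mul_comm]
    exact mul_le_mul_of_nonneg_right (f.norm_coe_le_norm _) (Real.exp_pos _).le
  · have := hT f (t, y)
    rw [hf, hφ] at this
    simp only at this ⊢
    rw [this, ← mul_assoc, ← Real.exp_add, add_neg_cancel, Real.exp_zero, one_mul]

lemma unif_diff {f f' : ℝ → ℝ} (hd : ∀ s, HasDerivAt f (f' s) s) {x d ε : ℝ}
    (h : ∀ s, |s - x| ≤ |d| → |f' s - f' x| ≤ ε) : |f (x + d) - f x - f' x * d| ≤ ε * |d| := by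
  have h1 := (convex_uIcc x (x + d)).norm_image_sub_le_of_norm_hasDerivWithin_le
    (f := fun s => f s - f' x * s) (f' := fun s => f' s - f' x * 1) (C := ε)
    (fun s _ => ((hd s).sub ((hasDerivAt_id s).const_mul _)).hasDerivWithinAt)
    (fun s hs => by
      rw [Real.norm_eq_abs, mul_one]
      have h2 := abs_sub_left_of_mem_uIcc hs
      rw [add_sub_cancel_left] at h2
      exact h s h2) left_mem_uIcc right_mem_uIcc
  rw [Real.norm_eq_abs, Real.norm_eq_abs, add_sub_cancel_left] at h1
  rwa [show f (x + d) - f x - f' x * d = f (x + d) - f' x * (x + d) - (f x - f' x * x) by ring]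

lemma exist_PQ {G k : ℝ → ℝ} {κ M : ℝ} (dG : ∀ s, HasDerivAt G (k s) s) (ck : Continuous k)
    (hκ : 0 < κ) (bk : ∀ s, |k s| ≤ κ) (odd : ∀ s, G (-s) = - G s) {P0 Q0 : ℝ → ℝ}
    (d0 : ∀ y, HasDerivAt P0 (Q0 y) y) (b0 : ∀ y, |P0 y| ≤ M)
    (bq : ∀ y, |Q0 y| ≤ M) (lq : ∀ y z, |Q0 y - Q0 z| ≤ M * |y - z|)
    (anti : ∀ y, P0 (y + 1) = - P0 y) :
    ∃ P Q : ℝ → ℝ → ℝ, Continuous P.uncurry ∧ Continuous Q.uncurry ∧
      (∀ t y, P t (y + 1) = - P t y) ∧
      (∀ t y, P t y = P0 y - ∫ s in (0:ℝ)..t, G (P s y - P s (2 * s - y))) ∧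
      ∀ t y, HasDerivAt (P t) (Q t y) y := by
  have hM : 0 ≤ M := (abs_nonneg _).trans (b0 0)
  have cG : Continuous G := continuous_iff_continuousAt.2 fun s => (dG s).continuousAt
  have cP0 : Continuous P0 := continuous_iff_continuousAt.2 fun s => (d0 s).continuousAt
  have cQ0 : Continuous Q0 := by
    refine (LipschitzWith.of_dist_le_mul (K := ⟨M, hM⟩) fun y z => ?_).continuous
    exact lq y z
  have G0 : G 0 = 0 := by have := odd 0; rw [neg_zero] at this; linarith
  have lG : ∀ x y, |G x - G y| ≤ κ * |x - y| := fun x y => by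
    simpa [Real.norm_eq_abs] using convex_univ.norm_image_sub_le_of_norm_hasDerivWithin_le
      (f := G) (f' := k) (C := κ) (fun s _ => (dG s).hasDerivWithinAt) (fun s _ => bk s)
      (mem_univ y) (mem_univ x)
  have lP : ∀ x y, |P0 x - P0 y| ≤ M * |x - y| := fun x y => by
    simpa [Real.norm_eq_abs] using convex_univ.norm_image_sub_le_of_norm_hasDerivWithin_le
      (f := P0) (f' := Q0) (C := M) (fun s _ => (d0 s).hasDerivWithinAt) (fun s _ => bq s)
      (mem_univ y) (mem_univ x)
  obtain ⟨P, cP, ⟨B, hB, bP⟩, eP⟩ := fixp (H := fun _ a b => G (a - b)) (by fun_prop) hκ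
    (fun _ a b a' b' => (lG _ _).trans (mul_le_mul_of_nonneg_left (by
      rw [show a - b - (a' - b') = (a - a') - (b - b') by ring]; exact abs_sub _ _) hκ.le))
    (fun _ => by simp [G0]) cP0 b0
  have cP' : ∀ {X : Type} [TopologicalSpace X] {a b : X → ℝ}, Continuous a → Continuous b →
      Continuous fun x => P (a x) (b x) := fun ha hb => cP.comp (ha.prodMk hb)
  obtain ⟨Q, cQ, ⟨B', hB', bQ⟩, eQ⟩ := fixp
    (H := fun z a b => k (P z.1 z.2 - P z.1 (2 * z.1 - z.2)) * (a + b))
    ((ck.comp ((cP' (by fun_prop) (by fun_prop)).sub (cP' (by fun_prop) (by fun_prop)))).mul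
      (by fun_prop)) hκ
    (fun z a b a' b' => by
      rw [← mul_sub, abs_mul, show a + b - (a' + b') = (a - a') + (b - b') by ring]
      exact mul_le_mul (bk _) (abs_add_le _ _) (abs_nonneg _) hκ.le)
    (fun _ => by simp) cQ0 bq
  have cQ' : ∀ {X : Type} [TopologicalSpace X] {a b : X → ℝ}, Continuous a → Continuous b →
      Continuous fun x => Q (a x) (b x) := fun ha hb => cQ.comp (ha.prodMk hb)
  have cg : ∀ y, Continuous fun s => G (P s y - P s (2 * s - y)) := fun y =>
    cG.comp ((cP' continuous_id continuous_const).sub (cP' continuous_id (by fun_prop)))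
  have cq : ∀ y, Continuous fun s =>
      k (P s y - P s (2 * s - y)) * (Q s y + Q s (2 * s - y)) := fun y =>
    (ck.comp ((cP' continuous_id continuous_const).sub (cP' continuous_id (by fun_prop)))).mul
      ((cQ' continuous_id continuous_const).add (cQ' continuous_id (by fun_prop)))
  have bP' : ∀ T t, |t| ≤ T → ∀ y, |P t y| ≤ B * Real.exp (4 * κ * T) := fun T t ht y =>
    (bP t y).trans (by gcongr)
  have bQ' : ∀ T t, |t| ≤ T → ∀ y, |Q t y| ≤ B' * Real.exp (4 * κ * T) := fun T t ht y =>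
    (bQ t y).trans (by gcongr)
  refine ⟨P, Q, cP, cQ, fun t y => ?_, eP, fun t y => ?_⟩
  · have key := gron (ι := {q : ℝ × ℝ // |q.2| = 1}) (F := fun s q => P s (q.1.1 + q.1.2) + P s q.1.1)
      (T := |t|) (L := κ) (η := 0) (ε := 0) (B0 := 2 * (B * Real.exp (4 * κ * |t|))) hκ le_rfl
      le_rfl (abs_nonneg t) (by positivity)
      (fun s hs q => (abs_add_le _ _).trans
        (by linarith [bP' _ s hs (q.1.1 + q.1.2), bP' _ s hs q.1.1])) (fun s hs q => by
        obtain ⟨⟨y, σ⟩, hσ⟩ := q
        simp only at hσ ⊢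
        refine ⟨fun r => - (G (P r (y + σ) - P r (2 * r - (y + σ))) + G (P r y - P r (2 * r - y))),
          fun _ => ⟨(y, σ), hσ⟩, fun r => ⟨(2 * r - y, -σ), by rwa [abs_neg]⟩, ?_, fun r _ => ?_⟩
        · rw [intervalIntegral.integral_neg, intervalIntegral.integral_add
            ((cg _).intervalIntegrable _ _) ((cg _).intervalIntegrable _ _), eP s (y + σ), eP s y]
          have : P0 (y + σ) = - P0 y := by
            rcases (abs_eq zero_le_one).1 hσ with h | h
            · rw [h, anti]
            · have := anti (y + -1)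
              rw [show y + -1 + 1 = y by ring] at this
              rw [h]; linarith
          rw [this, abs_nonpos_iff]
          ring
        · simp only
          rw [abs_neg, zero_add, ← neg_sub (P r (2 * r - y)), odd, ← sub_eq_add_neg,
            show 2 * r - y + -σ = 2 * r - (y + σ) by ring]
          refine (lG _ _).trans (mul_le_mul_of_nonneg_left ?_ hκ.le)
          rw [show P r (y + σ) - P r (2 * r - (y + σ)) - (P r (2 * r - y) - P r y) =
            (P r (y + σ) + P r y) - (P r (2 * r - (y + σ)) + P r (2 * r - y)) by ring]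
          exact abs_sub _ _) t le_rfl ⟨(y, 1), abs_one⟩
    simp only [zero_mul, add_zero, mul_zero, abs_nonpos_iff] at key
    linarith
  · obtain ⟨T, hT⟩ : ∃ T, T = |t| := ⟨_, rfl⟩
    have hT0 : 0 ≤ T := by rw [hT]; exact abs_nonneg t
    obtain ⟨E, hE⟩ : ∃ E, E = Real.exp (4 * κ * T) := ⟨_, rfl⟩
    have hE0 : 0 < E := by rw [hE]; positivity
    have bP2 := bP' T
    have bQ2 := bQ' T
    rw [← hE] at bP2 bQ2
    have lipP : ∀ h s, |s| ≤ T → ∀ y, |P s (y + h) - P s y| ≤ 2 * M * E * |h| := by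
      intro h s hs y
      have key := gron (ι := {q : ℝ × ℝ // |q.2| = |h|})
        (F := fun s q => P s (q.1.1 + q.1.2) - P s q.1.1)
        (T := T) (L := κ) (η := M * |h|) (ε := 0) (B0 := 2 * (B * E)) hκ (by positivity)
        le_rfl hT0 (by positivity)
        (fun s hs q => (abs_sub _ _).trans
          (by linarith [bP2 s hs (q.1.1 + q.1.2), bP2 s hs q.1.1])) (fun s hs q => by
          obtain ⟨⟨y, σ⟩, hσ⟩ := q
          simp only at hσ ⊢
          refine ⟨fun r => - (G (P r (y + σ) - P r (2 * r - (y + σ))) -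
            G (P r y - P r (2 * r - y))), fun _ => ⟨(y, σ), hσ⟩,
            fun r => ⟨(2 * r - y, -σ), by rwa [abs_neg]⟩, ?_, fun r _ => ?_⟩
          · rw [intervalIntegral.integral_neg, intervalIntegral.integral_sub
              ((cg _).intervalIntegrable _ _) ((cg _).intervalIntegrable _ _), eP s (y + σ),
              eP s y]
            have := lP (y + σ) y
            rw [add_sub_cancel_left, hσ] at this
            refine le_of_eq_of_le ?_ this
            congr 1; ring
          · simp only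
            rw [abs_neg, zero_add, show 2 * r - y + -σ = 2 * r - (y + σ) by ring]
            refine (lG _ _).trans (mul_le_mul_of_nonneg_left ?_ hκ.le)
            rw [show P r (y + σ) - P r (2 * r - (y + σ)) - (P r y - P r (2 * r - y)) =
              (P r (y + σ) - P r y) - (P r (2 * r - (y + σ)) - P r (2 * r - y)) by ring]
            exact abs_sub _ _) s hs ⟨(y, h), rfl⟩
      simp only [zero_mul, add_zero] at key
      refine key.trans ?_
      have : Real.exp (4 * κ * |s|) ≤ E := by rw [hE]; gcongr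
      calc _ ≤ 2 * (M * |h|) * E := by gcongr
        _ = _ := by ring
    rw [hasDerivAt_iff_isLittleO_nhds_zero, Asymptotics.isLittleO_iff]
    intro ε hε
    obtain ⟨ε1, hε1⟩ : ∃ ε1, ε1 = ε / (2 * (1 + 4 * M * E * T) * E) := ⟨_, rfl⟩
    have hε1' : 0 < ε1 := by rw [hε1]; positivity
    obtain ⟨δ, hδ, uk⟩ := Metric.uniformContinuousOn_iff.1
      ((isCompact_Icc (a := -(2 * (B * E) + 1)) (b := 2 * (B * E) + 1)).uniformContinuousOn_of_continuous
        ck.continuousOn) ε1 hε1'
    have ev1 : ∀ᶠ h : ℝ in 𝓝 0, 4 * M * E * |h| < min δ 1 :=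
      (by fun_prop : Continuous fun h : ℝ => 4 * M * E * |h|).continuousAt.eventually
        (gt_mem_nhds (by simp [hδ]))
    have ev2 : ∀ᶠ h : ℝ in 𝓝 0, M * |h| < ε1 :=
      (by fun_prop : Continuous fun h : ℝ => M * |h|).continuousAt.eventually
        (gt_mem_nhds (by simp [hε1']))
    filter_upwards [ev1, ev2] with h h1 h2
    have key := gron (ι := {q : ℝ × ℝ // |q.2| = |h|})
      (F := fun s q => P s (q.1.1 + q.1.2) - P s q.1.1 - q.1.2 * Q s q.1.1)
      (T := T) (L := κ) (η := ε1 * |h|) (ε := ε1 * (4 * M * E * |h|))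
      (B0 := 2 * (B * E) + |h| * (B' * E)) hκ (by positivity) (by positivity) hT0 (by positivity)
      (fun s hs q => (abs_sub _ _).trans (add_le_add ((abs_sub _ _).trans
        (by linarith [bP2 s hs (q.1.1 + q.1.2), bP2 s hs q.1.1])) (by
          rw [abs_mul, q.2]; exact mul_le_mul_of_nonneg_left (bQ2 s hs _) (abs_nonneg _))))
      (fun s hs q => by
        obtain ⟨⟨y, σ⟩, hσ⟩ := q
        simp only at hσ ⊢
        refine ⟨fun r => - (G (P r (y + σ) - P r (2 * r - (y + σ))) -
          G (P r y - P r (2 * r - y)) -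
          σ * (k (P r y - P r (2 * r - y)) * (Q r y + Q r (2 * r - y)))), fun _ => ⟨(y, σ), hσ⟩,
          fun r => ⟨(2 * r - y, -σ), by rwa [abs_neg]⟩, ?_, fun r hr => ?_⟩
        · have i1 : IntervalIntegrable (fun r => G (P r (y + σ) - P r (2 * r - (y + σ))) -
              G (P r y - P r (2 * r - y))) volume 0 s :=
            ((cg _).sub (cg _)).intervalIntegrable _ _
          have i2 : IntervalIntegrable (fun r => σ * (k (P r y - P r (2 * r - y)) *
              (Q r y + Q r (2 * r - y)))) volume 0 s :=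
            (continuous_const.mul (cq _)).intervalIntegrable _ _
          rw [intervalIntegral.integral_neg, intervalIntegral.integral_sub i1 i2,
            intervalIntegral.integral_sub
            ((cg _).intervalIntegrable _ _) ((cg _).intervalIntegrable _ _),
            intervalIntegral.integral_const_mul, eP s (y + σ), eP s y, eQ s y]
          have := unif_diff d0 (x := y) (d := σ) (ε := ε1) (fun r hr =>
            (lq r y).trans ((mul_le_mul_of_nonneg_left (hr.trans hσ.le) hM).trans h2.le))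
          rw [hσ] at this
          refine le_of_eq_of_le ?_ this
          congr 1; ring
        · simp only
          rw [abs_neg, show 2 * r - y + -σ = 2 * r - (y + σ) by ring]
          obtain ⟨x, hx⟩ : ∃ x, x = P r y - P r (2 * r - y) := ⟨_, rfl⟩
          obtain ⟨d, hd⟩ : ∃ d, d = (P r (y + σ) - P r y) -
            (P r (2 * r - (y + σ)) - P r (2 * r - y)) := ⟨_, rfl⟩
          have x1 : |x| ≤ 2 * (B * E) := by
            rw [hx]
            exact (abs_sub _ _).trans (by linarith [bP2 r hr y, bP2 r hr (2 * r - y)])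
          have d1 : |d| ≤ 4 * M * E * |h| := by
            have a1 := lipP σ r hr y
            have a2 := lipP (-σ) r hr (2 * r - y)
            rw [abs_neg, show 2 * r - y + -σ = 2 * r - (y + σ) by ring] at a2
            rw [hσ] at a1 a2
            rw [hd]
            exact (abs_sub _ _).trans (by linarith)
          have d2 := d1.trans_lt h1
          have a3 := unif_diff dG (x := x) (d := d) (ε := ε1) (fun w hw => by
            have w1 := abs_le.1 (hw.trans (d2.le.trans (min_le_right _ _)))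
            have x2 := abs_le.1 x1
            have := uk w ⟨by linarith, by linarith⟩ x ⟨by linarith, by linarith⟩
              (by rw [Real.dist_eq]; exact hw.trans_lt (d2.trans_le (min_le_left _ _)))
            rw [Real.dist_eq] at this
            exact this.le)
          have e1 : P r (y + σ) - P r (2 * r - (y + σ)) = x + d := by rw [hx, hd]; ring
          rw [e1, ← hx]
          have e2 : G (x + d) - G x - σ * (k x * (Q r y + Q r (2 * r - y))) =
              (G (x + d) - G x - k x * d) + k x * ((P r (y + σ) - P r y - σ * Q r y) -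
              (P r (2 * r - (y + σ)) - P r (2 * r - y) - -σ * Q r (2 * r - y))) := by
            rw [hd]; ring
          rw [e2]
          refine (abs_add_le _ _).trans (add_le_add
            (a3.trans (mul_le_mul_of_nonneg_left d1 hε1'.le)) ?_)
          rw [abs_mul]
          exact mul_le_mul (bk x) (abs_sub _ _) (abs_nonneg _) hκ.le) t hT.ge ⟨(y, h), rfl⟩
    simp only at key
    rw [← hT, ← hE] at key
    rw [Real.norm_eq_abs, Real.norm_eq_abs, smul_eq_mul]
    refine key.trans (le_of_eq ?_)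
    rw [hε1]; field_simp

end Pool.Agent.H.MP_be01ff_an
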