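import Pool.Agent.H.MP_be01ff_an.G
import Pool.Agent.H.MP_be01ff_an.H

namespace Pool.Agent.H.MP_be01ff_an

open Set MeasureTheory intervalIntegral Filter Topology Real

lemma fderiv_of_parts {f f1 f2 : ℝ → ℝ → ℝ} (c1 : Continuous f1.uncurry)
    (c2 : Continuous f2.uncurry) (d1 : ∀ t y, HasDerivAt (fun s => f s y) (f1 t y) t)
    (d2 : ∀ t y, HasDerivAt (f t) (f2 t y) y) (z : ℝ × ℝ) :
    HasFDerivAt f.uncurry (f1.uncurry z • ContinuousLinearMap.fst ℝ ℝ ℝ +
      f2.uncurry z • ContinuousLinearMap.snd ℝ ℝ ℝ) z := by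
  have h := hasStrictFDerivAt_uncurry_coprod (𝕜 := ℝ) (u := z) (f := f)
    (f₁ := fun t y => f1 t y • ContinuousLinearMap.id ℝ ℝ)
    (f₂ := fun t y => f2 t y • ContinuousLinearMap.id ℝ ℝ)
    (Eventually.of_forall fun v => (d1 v.1 v.2).hasFDerivAt.congr_fderiv (by ext; exact (mul_one _).symm.trans (by simp; exact (mul_one _).symm)))
    (Eventually.of_forall fun v => (d2 v.1 v.2).hasFDerivAt.congr_fderiv (by ext; exact (mul_one _).symm.trans (by simp; exact (mul_one _).symm)))
    (c1.smul continuous_const).continuousAt (c2.smul continuous_const).continuousAt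
  exact h.hasFDerivAt.congr_fderiv (by ext <;> simp <;> exact mul_one _)

lemma trunc {c α : ℝ} (hc : 0 < c) (hα : 0 < α) : ∃ G k : ℝ → ℝ,
    (∀ s, HasDerivAt G (k s) s) ∧ Continuous k ∧ (∀ s, 0 ≤ k s) ∧ (∀ s, |k s| ≤ c * (α + 1)) ∧
    (∀ s, G (-s) = - G s) ∧ ∀ s, |s| ≤ 1 → G s = Gf c α s := by
  obtain ⟨k, hk⟩ : ∃ k : ℝ → ℝ, k = fun s => c * (α + 1) * (min |s| 1) ^ α := ⟨_, rfl⟩
  have ck : Continuous k := by
    rw [hk]
    exact continuous_const.mul ((continuous_abs.min continuous_const).rpow_const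
      (fun _ => Or.inr hα.le))
  have k0 : ∀ s, 0 ≤ k s := fun s => by rw [hk]; positivity
  refine ⟨fun s => ∫ r in (0:ℝ)..s, k r, k, fun s => (ck.integral_hasStrictDerivAt 0 s).hasDerivAt,
    ck, k0, fun s => ?_, fun s => ?_, fun s hs => ?_⟩
  · rw [abs_of_nonneg (k0 s), hk]
    have : (min |s| 1) ^ α ≤ 1 := Real.rpow_le_one (by positivity) (min_le_right _ _) hα.le
    have := mul_le_mul_of_nonneg_left this (by positivity : 0 ≤ c * (α + 1))
    linarith
  · have := intervalIntegral.integral_comp_neg (a := 0) (b := s) k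
    rw [neg_zero, intervalIntegral.integral_symm 0 (-s)] at this
    have e : ∀ x, k (-x) = k x := fun x => by rw [hk]; simp only [abs_neg]
    simp only [e] at this
    linarith
  · have := intervalIntegral.integral_eq_sub_of_hasDerivAt (a := 0) (b := s) (f := Gf c α) (f' := k)
      (fun x hx => by
        have h1 : |x| ≤ 1 := by
          have := abs_sub_left_of_mem_uIcc hx
          rw [sub_zero, sub_zero] at this
          exact this.trans hs
        rw [hk]; simp only [min_eq_left h1]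
        exact Gf_deriv hα x) (ck.intervalIntegrable _ _)
    rw [Gf_zero, sub_zero] at this
    exact this

theorem unit_exist {c α : ℝ} (hc : 0 < c) (hα : 0 < α) : ∃ u v w : ℝ → ℝ → ℝ,
    ContDiff ℝ 2 u.uncurry ∧ (∀ t x, HasDerivAt (fun s => u s x) (v t x) t) ∧
    (∀ t x, HasDerivAt (u t) (w t x) x) ∧
    (∀ t, 0 ≤ t → ∀ x, ∃ r, HasDerivAt (fun s => v s x) (r - Gf c α (2 * v t x)) t ∧
      HasDerivAt (w t) r x) ∧ (∀ t, u t 0 = 0 ∧ u t 1 = 0) ∧ v 0 (1 / 2) ≠ 0 := by
  obtain ⟨G, k, dG, ck, k0, bk, odd, eG⟩ := trunc hc hα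
  have cG : Continuous G := continuous_iff_continuousAt.2 fun s => (dG s).continuousAt
  have G0 : G 0 = 0 := by have := odd 0; rw [neg_zero] at this; linarith
  have mG : Monotone G := monotone_of_hasDerivAt_nonneg dG k0
  have hπ := pi_pos
  have hπ4 := pi_le_four
  obtain ⟨P, Q, cP, cQ, anti, eP, dP⟩ := exist_PQ (κ := c * (α + 1)) (M := 8) dG ck
    (by positivity) bk odd (P0 := fun y => 1 / 2 * sin (π * y))
    (Q0 := fun y => 1 / 2 * (cos (π * y) * (π * 1)))
    (fun y => ((hasDerivAt_id y).const_mul π).sin.const_mul _)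
    (fun y => by
      have := abs_le.1 (abs_sin_le_one (π * y))
      rw [abs_le]; constructor <;> linarith)
    (fun y => by
      have := abs_le.1 (abs_cos_le_one (π * y))
      rw [abs_le]; constructor <;> nlinarith)
    (fun y z => by
      have h1 := abs_cos_sub_cos_le (π * y) (π * z)
      rw [← mul_sub, abs_mul, abs_of_pos hπ] at h1
      rw [show 1 / 2 * (cos (π * y) * (π * 1)) - 1 / 2 * (cos (π * z) * (π * 1)) =
        π / 2 * (cos (π * y) - cos (π * z)) by ring, abs_mul, abs_of_pos (by positivity)]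
      have h2 := abs_nonneg (y - z)
      calc _ ≤ 2 * (4 * |y - z|) := mul_le_mul (by linarith) (h1.trans (by gcongr))
              (abs_nonneg _) (by norm_num)
        _ = _ := by ring)
    (fun y => by rw [mul_add, mul_one, sin_add_pi]; ring)
  have cP' : ∀ {X : Type} [TopologicalSpace X] {a b : X → ℝ}, Continuous a → Continuous b →
      Continuous fun x => P (a x) (b x) := fun ha hb => cP.comp (ha.prodMk hb)
  have cQ' : ∀ {X : Type} [TopologicalSpace X] {a b : X → ℝ}, Continuous a → Continuous b →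
      Continuous fun x => Q (a x) (b x) := fun ha hb => cQ.comp (ha.prodMk hb)
  have P0 : ∀ y, P 0 y = 1 / 2 * sin (π * y) := fun y => by rw [eP]; simp
  have hS : Sol G P := ⟨cG, cP, fun t y => by
    rw [show y + 2 = y + 1 + 1 by ring, anti, anti, neg_neg], fun t _ y => by rw [eP t y, P0]⟩
  have hb : ∀ t, 0 ≤ t → ∀ y, |P t y| ≤ 1 / 2 := fun t ht y =>
    hS.maxabs odd (fun s hs => by rw [← G0]; exact mG hs)
      (fun _ => ⟨c * (α + 1), by positivity, fun s hs => by
        have := convex_univ.norm_image_sub_le_of_norm_hasDerivWithin_le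
          (f := G) (f' := k) (C := c * (α + 1)) (fun s _ => (dG s).hasDerivWithinAt)
          (fun s _ => bk s) (mem_univ 0) (mem_univ s)
        rw [G0, sub_zero, sub_zero, Real.norm_eq_abs, Real.norm_eq_abs, abs_of_nonneg hs.1] at this
        exact (le_abs_self _).trans this⟩) le_rfl
      (fun y => by
        rw [P0]
        have := abs_le.1 (abs_sin_le_one (π * y))
        rw [abs_le]; constructor <;> linarith) ht y
  obtain ⟨R, hR⟩ : ∃ R : ℝ → ℝ → ℝ, R = fun t y => - G (P t y - P t (2 * t - y)) := ⟨_, rfl⟩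
  have cR : Continuous R.uncurry := by
    rw [hR]
    exact (cG.comp ((cP' continuous_fst continuous_snd).sub
      (cP' continuous_fst (by fun_prop)))).neg
  have dR : ∀ t y, HasDerivAt (fun s => P s y) (R t y) t := fun t y => by
    have := ((hS.contg y).integral_hasStrictDerivAt 0 t).hasDerivAt.const_sub (1 / 2 * sin (π * y))
    rw [hR]
    exact this.congr_of_eventuallyEq (Eventually.of_forall fun s => eP s y)
  have DP := fderiv_of_parts cR cQ dR dP
  have C1 : ContDiff ℝ 1 P.uncurry := contDiff_one_iff_hasFDerivAt.2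
    ⟨_, (cR.smul continuous_const).add (cQ.smul continuous_const), DP⟩
  have curve : ∀ {a b : ℝ → ℝ} {a' b' s : ℝ}, HasDerivAt a a' s → HasDerivAt b b' s →
      HasDerivAt (fun r => P (a r) (b r)) (R (a s) (b s) * a' + Q (a s) (b s) * b') s :=
    fun {a b a' b' s} ha hb => by
      have := (DP (a s, b s)).comp_hasDerivAt (f := fun r => (a r, b r)) s (ha.prodMk hb)
      refine this.congr_deriv ?_
      simp
  obtain ⟨v, hv⟩ : ∃ v : ℝ → ℝ → ℝ, v = fun t x => 1 / 2 * (P t (t + x) - P t (t - x)) := ⟨_, rfl⟩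
  obtain ⟨w, hw⟩ : ∃ w : ℝ → ℝ → ℝ, w = fun t x => 1 / 2 * (P t (t + x) + P t (t - x)) := ⟨_, rfl⟩
  have Cp : ContDiff ℝ 1 fun z : ℝ × ℝ => P z.1 (z.1 + z.2) :=
    C1.comp (f := fun z : ℝ × ℝ => (z.1, z.1 + z.2)) (by fun_prop)
  have Cm : ContDiff ℝ 1 fun z : ℝ × ℝ => P z.1 (z.1 - z.2) :=
    C1.comp (f := fun z : ℝ × ℝ => (z.1, z.1 - z.2)) (by fun_prop)
  have Cv : ContDiff ℝ 1 v.uncurry := by rw [hv]; exact contDiff_const.mul (Cp.sub Cm)
  have Cw : ContDiff ℝ 1 w.uncurry := by rw [hw]; exact contDiff_const.mul (Cp.add Cm)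
  have R1 : ∀ t x, R t (t + x) = - G (2 * v t x) := fun t x => by
    rw [hR, hv]; simp only
    rw [show 2 * t - (t + x) = t - x by ring]; congr 2; ring
  have R2 : ∀ t x, R t (t - x) = G (2 * v t x) := fun t x => by
    rw [hR, hv]; simp only
    rw [show 2 * t - (t - x) = t + x by ring, ← odd]; congr 1; ring
  have tp : ∀ t x, HasDerivAt (fun s => P s (s + x)) (R t (t + x) * 1 + Q t (t + x) * 1) t :=
    fun t x => curve (hasDerivAt_id t) ((hasDerivAt_id t).add_const x)
  have tm : ∀ t x, HasDerivAt (fun s => P s (s - x)) (R t (t - x) * 1 + Q t (t - x) * 1) t :=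
    fun t x => curve (hasDerivAt_id t) ((hasDerivAt_id t).sub_const x)
  have xp : ∀ t x, HasDerivAt (fun s => P t (t + s)) (Q t (t + x) * 1) x :=
    fun t x => (dP t (t + x)).comp x ((hasDerivAt_id x).const_add t)
  have xm : ∀ t x, HasDerivAt (fun s => P t (t - s)) (Q t (t - x) * -1) x :=
    fun t x => (dP t (t - x)).comp x ((hasDerivAt_id x).const_sub t)
  obtain ⟨m, hm⟩ : ∃ m : ℝ → ℝ → ℝ, m = fun t x => 1 / 2 * (Q t (t + x) + Q t (t - x)) := ⟨_, rfl⟩
  have cm : Continuous m.uncurry := by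
    rw [hm]
    exact continuous_const.mul ((cQ' continuous_fst (by fun_prop)).add
      (cQ' continuous_fst (by fun_prop)))
  have wt : ∀ t x, HasDerivAt (fun s => w s x) (m t x) t := fun t x => by
    rw [hw, hm]
    refine (((tp t x).add (tm t x)).const_mul (1 / 2)).congr_deriv ?_
    rw [R1, R2]; ring
  have vx : ∀ t x, HasDerivAt (v t) (m t x) x := fun t x => by
    rw [hv, hm]
    refine (((xp t x).sub (xm t x)).const_mul (1 / 2)).congr_deriv ?_
    ring
  have cw : ∀ t, Continuous (w t) := fun t => Cw.continuous.comp (f := fun x => (t, x)) (by fun_prop)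
  have cv : ∀ x, Continuous fun s => v s x := fun x =>
    Cv.continuous.comp (f := fun s => (s, x)) (by fun_prop)
  have ux : ∀ t x, HasDerivAt (fun x => ∫ ξ in (0:ℝ)..x, w t ξ) (w t x) x := fun t x =>
    ((cw t).integral_hasStrictDerivAt 0 x).hasDerivAt
  have ut : ∀ t x, HasDerivAt (fun s => ∫ ξ in (0:ℝ)..x, w s ξ) (v t x) t := fun t x => by
    refine (((cv x).integral_hasStrictDerivAt 0 t).hasDerivAt.const_add
      (∫ ξ in (0:ℝ)..x, w 0 ξ)).congr_of_eventuallyEq (Eventually.of_forall fun s => ?_)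
    have a1 : ∀ r, v r x = ∫ ξ in (0:ℝ)..x, m r ξ := fun r => by
      rw [intervalIntegral.integral_eq_sub_of_hasDerivAt (fun ξ _ => vx r ξ)
        ((cm.comp (f := fun ξ => (r, ξ)) (by fun_prop)).intervalIntegrable _ _), hv]
      simp
    have a2 : ∀ ξ, ∫ r in (0:ℝ)..s, m r ξ = w s ξ - w 0 ξ := fun ξ =>
      intervalIntegral.integral_eq_sub_of_hasDerivAt (f := fun r => w r ξ) (fun r _ => wt r ξ)
        ((cm.comp (f := fun r => (r, ξ)) (by fun_prop)).intervalIntegrable _ _)
    simp only [a1]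
    rw [swap cm]
    simp only [a2]
    rw [intervalIntegral.integral_sub ((cw s).intervalIntegrable _ _)
      ((cw 0).intervalIntegrable _ _)]
    ring
  refine ⟨fun t x => ∫ ξ in (0:ℝ)..x, w t ξ, v, w, ?_, ut, ux, fun t ht x => ?_, fun t => ?_, ?_⟩
  · exact (contDiff_succ_iff_hasFDerivAt (n := 1)).2
      ⟨_, (Cv.smul contDiff_const).add (Cw.smul contDiff_const),
        fderiv_of_parts Cv.continuous Cw.continuous ut ux⟩
  · refine ⟨1 / 2 * (Q t (t + x) - Q t (t - x)), ?_, ?_⟩
    · have e : Gf c α (2 * v t x) = G (2 * v t x) := (eG _ (by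
        rw [hv]
        have a1 := abs_le.1 (hb t ht (t + x))
        have a2 := abs_le.1 (hb t ht (t - x))
        rw [abs_le]; constructor <;> linarith)).symm
      have := ((tp t x).sub (tm t x)).const_mul (1 / 2)
      rw [R1, R2, ← e] at this
      refine (this.congr_deriv (by ring)).congr_of_eventuallyEq
        (Eventually.of_forall fun s => by rw [hv]; rfl)
    · rw [hw]
      refine (((xp t x).add (xm t x)).const_mul (1 / 2)).congr_deriv ?_
      ring
  · refine ⟨by simp, ?_⟩
    have c1 : Continuous (P t) := cP' continuous_const continuous_id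
    simp only [hw]
    rw [intervalIntegral.integral_const_mul, intervalIntegral.integral_add
      (Continuous.intervalIntegrable (by fun_prop) _ _)
      (Continuous.intervalIntegrable (by fun_prop) _ _), intervalIntegral.integral_comp_add_left,
      intervalIntegral.integral_comp_sub_left]
    have a1 := intervalIntegral.integral_comp_add_right (a := t - 1) (b := t - 0) (P t) 1
    simp only [anti, intervalIntegral.integral_neg] at a1
    rw [show t - 1 + 1 = t + 0 by ring, show t - 0 + 1 = t + 1 by ring] at a1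
    rw [← a1]; ring
  · rw [hv]; simp only [P0]
    rw [zero_add, zero_sub, mul_neg, sin_neg, show π * (1 / 2) = π / 2 by ring, sin_pi_div_two]
    norm_num

theorem exist {a α A B : ℝ} (ha : 0 < a) (hα : 0 < α) (hAB : A < B) : ∃ u : ℝ × ℝ → ℝ,
    ContDiff ℝ 2 u ∧ (∀ t, 0 ≤ t → u (t, A) = 0 ∧ u (t, B) = 0) ∧
    (∀ t, 0 ≤ t → ∀ x ∈ Icc A B,
      deriv (fun s => deriv (fun r => u (r, x)) s) t - deriv (fun y => deriv (fun z => u (t, z)) y) x
        + a * |deriv (fun r => u (r, x)) t| ^ α * deriv (fun r => u (r, x)) t = 0) ∧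
    ∃ c C : ℝ, 0 < c ∧ c ≤ C ∧ ∀ t, 0 ≤ t →
      c * (1 + t) ^ (-2 / α) ≤
        ∫ x in A..B, (deriv (fun r => u (r, x)) t ^ 2 + deriv (fun z => u (t, z)) x ^ 2) ∧
      ∫ x in A..B, (deriv (fun r => u (r, x)) t ^ 2 + deriv (fun z => u (t, z)) x ^ 2) ≤
        C * (1 + t) ^ (-2 / α) := by
  obtain ⟨l, hl⟩ : ∃ l, l = B - A := ⟨_, rfl⟩
  have hl0 : 0 < l := by linarith
  obtain ⟨u, v, w, C2, ut, ux, pde, bc, ne⟩ :=
    unit_exist (c := a * l / 2 ^ (α + 1)) (by positivity) hα
  obtain ⟨U, hU⟩ : ∃ U : ℝ × ℝ → ℝ, U = fun z => l * u (z.1 / l) ((z.2 - A) / l) := ⟨_, rfl⟩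
  have CU : ContDiff ℝ 2 U := by
    rw [hU]
    exact contDiff_const.mul (C2.comp (f := fun z : ℝ × ℝ => (z.1 / l, (z.2 - A) / l))
      (by fun_prop))
  have e1 : ∀ t x, deriv (fun r => U (r, x)) t = v (t / l) ((x - A) / l) := fun t x => by
    rw [hU]
    refine ((((ut (t / l) ((x - A) / l)).comp t ((hasDerivAt_id t).div_const l)).const_mul
      l).congr_deriv ?_).deriv
    field_simp
  have e2 : ∀ t x, deriv (fun z => U (t, z)) x = w (t / l) ((x - A) / l) := fun t x => by
    rw [hU]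
    refine ((((ux (t / l) ((x - A) / l)).comp x
      (((hasDerivAt_id x).sub_const A).div_const l)).const_mul l).congr_deriv ?_).deriv
    field_simp
  have hbc : ∀ t, 0 ≤ t → U (t, A) = 0 ∧ U (t, B) = 0 := fun t _ => by
    rw [hU]; simp only
    rw [sub_self, zero_div, ← hl, div_self hl0.ne', (bc _).1, (bc _).2]; simp
  have hpde : ∀ t, 0 ≤ t → ∀ x ∈ Icc A B,
      deriv (fun s => deriv (fun r => U (r, x)) s) t - deriv (fun y => deriv (fun z => U (t, z)) y) x
        + a * |deriv (fun r => U (r, x)) t| ^ α * deriv (fun r => U (r, x)) t = 0 := by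
    intro t ht x _
    simp only [e1, e2]
    obtain ⟨r, h1, h2⟩ := pde (t / l) (by positivity) ((x - A) / l)
    have a1 : deriv (fun s => v (s / l) ((x - A) / l)) t = _ :=
      (h1.comp (h := fun s => s / l) t ((hasDerivAt_id t).div_const l)).deriv
    have a2 : deriv (fun y => w (t / l) ((y - A) / l)) x = _ :=
      (h2.comp (h := fun y => (y - A) / l) x (((hasDerivAt_id x).sub_const A).div_const l)).deriv
    rw [a1, a2, Gf_two]
    field_simp; ring
  refine ⟨U, CU, hbc, hpde, classical ha hα hAB (CU.of_le (by norm_num))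
    (fun _ _ _ _ => CU.contDiffAt) hbc (fun t ht x hx => hpde t ht.le x (Ioo_subset_Icc_self hx))
    ⟨A + l / 2, ⟨by linarith, by linarith⟩, Or.inr ?_⟩⟩
  rw [e1, zero_div, show (A + l / 2 - A) / l = 1 / 2 by field_simp; ring]
  exact ne

end Pool.Agent.H.MP_be01ff_an
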